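import Mathlib
import Pool.Agent.Y298.CA.Stm

/-!
# Families of perturbations of `z ^ d + c₁`: definitions and basic facts
-/

set_option autoImplicit false

open Set Filter Metric MeasureTheory

namespace Pool.Agent.Y298.GA

open Pool.Agent.TH279.MD Pool.Agent.Y298.SH Pool.Agent.Y298.SH.CD

/-- The fibre map. -/
def F (d : ℕ) (h : ℂ → ℂ → ℂ) (w z : ℂ) : ℂ := z ^ d + h w z

/-- The iterates: the `n`-th iterate of `w` under its own fibre map. -/
def GG (d : ℕ) (h : ℂ → ℂ → ℂ) (n : ℕ) (w : ℂ) : ℂ := (F d h w)^[n] w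

/-- The derivative of the `n`-th iterate of the fibre map of `w` (frozen) at `w`. -/
noncomputable def DD (d : ℕ) (h : ℂ → ℂ → ℂ) (n : ℕ) (w : ℂ) : ℂ := deriv ((F d h w)^[n]) w

/-- The points whose orbit (for their own fibre map) stays in the closed ball of radius
`5 / 2`. -/
def BB (d : ℕ) (h : ℂ → ℂ → ℂ) : Set ℂ := {w | ∀ n, ‖GG d h n w‖ ≤ 5 / 2}

/-- Slow families: holomorphic families of maps `z ^ d + h w z`, `|z| < 8`, near `z ^ d + c₁`, over
the ball `ball u T`. -/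
structure Cv (c₁ : ℂ) (r κ : ℝ) (u : ℂ) (T : ℝ) (h : ℂ → ℂ → ℂ) : Prop where
  hol : DifferentiableOn ℂ (fun p : ℂ × ℂ => h p.1 p.2) (ball u T ×ˢ ball (0 : ℂ) 8)
  near : ∀ w ∈ ball u T, ∀ z ∈ ball (0 : ℂ) 8, ‖h w z - c₁‖ ≤ r
  vert : ∀ w ∈ ball u T, ∀ z ∈ ball (0 : ℂ) 8, ‖deriv (h w) z‖ ≤ r
  slow : ∀ w ∈ ball u T, ∀ z ∈ ball (0 : ℂ) 8, ‖deriv (fun w' => h w' z) w‖ ≤ κ

/-- The supremum of the areas over the slow families. -/
noncomputable def SS (d : ℕ) (c₁ : ℂ) (r κ : ℝ) : ENNReal :=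
  ⨆ (u : ℂ) (T : ℝ) (h : ℂ → ℂ → ℂ) (_ : 0 < T ∧ T ≤ 1 ∧ Cv c₁ r κ u T h),
    volume (BB d h ∩ ball u (T / 2))

variable {d : ℕ} {c₁ : ℂ} {r κ : ℝ} {u : ℂ} {T : ℝ} {h : ℂ → ℂ → ℂ}

theorem Cv.mono (H : Cv c₁ r κ u T h) {u' : ℂ} {T' : ℝ} (hs : ball u' T' ⊆ ball u T) :
    Cv c₁ r κ u' T' h :=
  ⟨H.hol.mono (prod_mono hs le_rfl), fun w hw => H.near w (hs hw), fun w hw => H.vert w (hs hw),
    fun w hw => H.slow w (hs hw)⟩

theorem Cv.mono_r (H : Cv c₁ r κ u T h) {r' κ' : ℝ} (hr : r ≤ r') (hκ : κ ≤ κ') :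
    Cv c₁ r' κ' u T h :=
  ⟨H.hol, fun w hw z hz => (H.near w hw z hz).trans hr, fun w hw z hz => (H.vert w hw z hz).trans hr,
    fun w hw z hz => (H.slow w hw z hz).trans hκ⟩

theorem Cv.at (H : Cv c₁ r κ u T h) {w z : ℂ} (hw : w ∈ ball u T) (hz : z ∈ ball (0 : ℂ) 8) :
    DifferentiableAt ℂ (fun p : ℂ × ℂ => h p.1 p.2) (w, z) :=
  H.hol.differentiableAt ((isOpen_ball.prod isOpen_ball).mem_nhds ⟨hw, hz⟩)

theorem Cv.diff2 (H : Cv c₁ r κ u T h) {w z : ℂ} (hw : w ∈ ball u T) (hz : z ∈ ball (0 : ℂ) 8) :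
    DifferentiableAt ℂ (h w) z := by
  have h1 : DifferentiableAt ℂ (fun z : ℂ => (w, z)) z :=
    (differentiableAt_const w).prodMk differentiableAt_id
  exact DifferentiableAt.comp (f := fun z : ℂ => (w, z)) z (H.at hw hz) h1

theorem Cv.diff1 (H : Cv c₁ r κ u T h) {w z : ℂ} (hw : w ∈ ball u T) (hz : z ∈ ball (0 : ℂ) 8) :
    DifferentiableAt ℂ (fun w' => h w' z) w := by
  have h1 : DifferentiableAt ℂ (fun w' : ℂ => (w', z)) w :=
    differentiableAt_id.prodMk (differentiableAt_const z)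
  exact DifferentiableAt.comp (f := fun w' : ℂ => (w', z)) w (H.at hw hz) h1

/-- The chain rule. -/
theorem Cv.comp (H : Cv c₁ r κ u T h) {g : ℂ → ℂ} {w g' : ℂ} (hw : w ∈ ball u T)
    (hz : g w ∈ ball (0 : ℂ) 8) (hg : HasDerivAt g g' w) :
    HasDerivAt (fun w' => h w' (g w')) (deriv (fun w' => h w' (g w)) w + deriv (h w) (g w) * g')
      w := by
  set L := fderiv ℂ (fun p : ℂ × ℂ => h p.1 p.2) (w, g w) with hL
  have hF : HasFDerivAt (fun p : ℂ × ℂ => h p.1 p.2) L (w, g w) := (H.at hw hz).hasFDerivAt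
  have e1 : deriv (fun w' => h w' (g w)) w = L (1, 0) := by
    have h1 : HasDerivAt (fun w' : ℂ => (w', g w)) ((1 : ℂ), (0 : ℂ)) w :=
      (hasDerivAt_id w).prodMk (hasDerivAt_const w (g w))
    exact (hF.comp_hasDerivAt w h1).deriv
  have e2 : deriv (h w) (g w) = L (0, 1) := by
    have h1 : HasDerivAt (fun z : ℂ => (w, z)) ((0 : ℂ), (1 : ℂ)) (g w) :=
      (hasDerivAt_const (g w) w).prodMk (hasDerivAt_id (g w))
    exact (hF.comp_hasDerivAt (g w) h1).deriv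
  have h1 : HasDerivAt (fun w' : ℂ => (w', g w')) ((1 : ℂ), g') w :=
    (hasDerivAt_id w).prodMk hg
  have h2 := hF.comp_hasDerivAt w h1
  have e3 : L (1, g') = L (1, 0) + L (0, 1) * g' := by
    have : ((1 : ℂ), g') = (1, 0) + g' • ((0 : ℂ), (1 : ℂ)) := by
      ext <;> simp
    rw [this, map_add, map_smul, smul_eq_mul, mul_comm]
  rw [e1, e2, ← e3]
  exact h2

theorem GG_zero (d : ℕ) (h : ℂ → ℂ → ℂ) : GG d h 0 = fun w => w := rfl

theorem GG_succ (d : ℕ) (h : ℂ → ℂ → ℂ) (n : ℕ) (w : ℂ) :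
    GG d h (n + 1) w = GG d h n w ^ d + h w (GG d h n w) := by
  unfold GG
  rw [Function.iterate_succ_apply']
  rfl

theorem GG_add (d : ℕ) (h : ℂ → ℂ → ℂ) (m n : ℕ) (w : ℂ) :
    GG d h (m + n) w = (F d h w)^[m] (GG d h n w) := by
  unfold GG
  rw [Function.iterate_add_apply]

/-- The derivative of the iterates along the family. -/
theorem Cv.hasDeriv (H : Cv c₁ r κ u T h) (d : ℕ) {w : ℂ} (hw : w ∈ ball u T) {n : ℕ}
    (hn : DifferentiableAt ℂ (GG d h n) w) (hz : GG d h n w ∈ ball (0 : ℂ) 8) :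
    HasDerivAt (GG d h (n + 1)) ((d * GG d h n w ^ (d - 1) + deriv (h w) (GG d h n w)) *
      deriv (GG d h n) w + deriv (fun w' => h w' (GG d h n w)) w) w := by
  have e1 : GG d h (n + 1) = fun w => GG d h n w ^ d + h w (GG d h n w) :=
    funext fun w => GG_succ d h n w
  rw [e1]
  refine ((hn.hasDerivAt.fun_pow d).fun_add (H.comp hw hz hn.hasDerivAt)).congr_deriv ?_
  ring

/-- The iterates are differentiable as long as the orbit stays in the ball. -/
theorem Cv.diff (H : Cv c₁ r κ u T h) (d : ℕ) {w : ℂ} (hw : w ∈ ball u T) {n : ℕ}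
    (hz : ∀ j < n, GG d h j w ∈ ball (0 : ℂ) 8) : DifferentiableAt ℂ (GG d h n) w := by
  induction n with
  | zero => exact differentiableAt_id
  | succ n ih =>
    exact (H.hasDeriv d hw (ih fun j hj => hz j (by omega)) (hz n (by omega))).differentiableAt

/-- The iterates of the fibre map are differentiable as long as the orbit stays in the ball. -/
theorem Cv.diffF (H : Cv c₁ r κ u T h) (d : ℕ) {w x : ℂ} (hw : w ∈ ball u T) {n : ℕ}
    (hz : ∀ j < n, (F d h w)^[j] x ∈ ball (0 : ℂ) 8) :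
    DifferentiableAt ℂ ((F d h w)^[n]) x := by
  induction n with
  | zero => exact differentiableAt_id
  | succ n ih =>
    have h1 := ih fun j hj => hz j (by omega)
    have h2 : DifferentiableAt ℂ (F d h w) ((F d h w)^[n] x) :=
      (differentiableAt_id.pow d).add (H.diff2 hw (hz n (by omega)))
    have e1 : (F d h w)^[n + 1] = (F d h w) ∘ ((F d h w)^[n]) := Function.iterate_succ' _ _
    rw [e1]
    exact h2.comp x h1

/-- The derivative of the iterates of the fibre map. -/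
theorem Cv.derivF (H : Cv c₁ r κ u T h) (d : ℕ) {w x : ℂ} (hw : w ∈ ball u T) {n : ℕ}
    (hz : ∀ j ≤ n, (F d h w)^[j] x ∈ ball (0 : ℂ) 8) :
    deriv ((F d h w)^[n + 1]) x = (d * ((F d h w)^[n] x) ^ (d - 1) +
      deriv (h w) ((F d h w)^[n] x)) * deriv ((F d h w)^[n]) x := by
  have h1 := (H.diffF d hw (n := n) fun j hj => hz j (by omega)).hasDerivAt
  have h2 : HasDerivAt (F d h w) (d * ((F d h w)^[n] x) ^ (d - 1) +
      deriv (h w) ((F d h w)^[n] x)) ((F d h w)^[n] x) := by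
    refine ((hasDerivAt_id' ((F d h w)^[n] x)).fun_pow d).fun_add
      (H.diff2 hw (hz n le_rfl)).hasDerivAt |>.congr_deriv ?_
    ring
  have e1 : (F d h w)^[n + 1] = (F d h w) ∘ ((F d h w)^[n]) := Function.iterate_succ' _ _
  rw [e1]
  exact (h2.comp x h1).deriv

theorem DD_zero (d : ℕ) (h : ℂ → ℂ → ℂ) (w : ℂ) : DD d h 0 w = 1 := by
  unfold DD
  rw [Function.iterate_zero, deriv_id]

theorem Cv.DD_succ (H : Cv c₁ r κ u T h) (d : ℕ) {w : ℂ} (hw : w ∈ ball u T) {n : ℕ}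
    (hz : ∀ j ≤ n, GG d h j w ∈ ball (0 : ℂ) 8) :
    DD d h (n + 1) w = (d * GG d h n w ^ (d - 1) + deriv (h w) (GG d h n w)) * DD d h n w :=
  H.derivF d hw hz

/-- The set of the points of bounded orbit is closed in the ball. -/
theorem Cv.isClosed (H : Cv c₁ r κ u T h) (d : ℕ) {K : Set ℂ} (hK : IsClosed K)
    (hKu : K ⊆ ball u T) : IsClosed (BB d h ∩ K) := by
  have key : ∀ n : ℕ, IsClosed {w | w ∈ K ∧ ∀ j < n, ‖GG d h j w‖ ≤ 5 / 2} := by
    intro n
    induction n with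
    | zero => simpa using hK
    | succ n ih =>
      have h1 : ContinuousOn (GG d h n) {w | w ∈ K ∧ ∀ j < n, ‖GG d h j w‖ ≤ 5 / 2} := by
        intro w hw
        refine (H.diff d (hKu hw.1) fun j hj => ?_).continuousAt.continuousWithinAt
        rw [mem_ball_zero_iff]
        linarith [hw.2 j hj]
      have h2 := h1.preimage_isClosed_of_isClosed ih (t := closedBall (0 : ℂ) (5 / 2))
        isClosed_closedBall
      convert h2 using 1
      ext w
      simp only [mem_ofPred_eq, mem_inter_iff, mem_preimage, mem_closedBall_zero_iff]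
      constructor
      · rintro ⟨h3, h4⟩
        exact ⟨⟨h3, fun j hj => h4 j (by omega)⟩, h4 n (by omega)⟩
      · rintro ⟨⟨h3, h4⟩, h5⟩
        refine ⟨h3, fun j hj => ?_⟩
        rcases Nat.lt_succ_iff_lt_or_eq.mp hj with h6 | h6
        · exact h4 j h6
        · rw [h6]
          exact h5
  have e1 : BB d h ∩ K = ⋂ n, {w | w ∈ K ∧ ∀ j < n, ‖GG d h j w‖ ≤ 5 / 2} := by
    ext w
    simp only [BB, mem_inter_iff, mem_ofPred_eq, mem_iInter]
    exact ⟨fun h3 n => ⟨h3.2, fun j _ => h3.1 j⟩, fun h3 => ⟨fun n => (h3 (n + 1)).2 n (by omega),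
      (h3 0).1⟩⟩
  rw [e1]
  exact isClosed_iInter key

end Pool.Agent.Y298.GA
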