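import Mathlib
import Pool.Agent.Y298.GA.Base

/-!
# Families of perturbations of `z ^ d + c₁`: the statements
-/

set_option autoImplicit false

open Set Filter Metric MeasureTheory

namespace Pool.Agent.Y298.GA

open Pool.Agent.TH279.MD Pool.Agent.Y298.SH Pool.Agent.Y298.SH.CD

/-- The passage property near the critical value, with constants. -/
structure PC (d : ℕ) (C₁ lam θ B Ca : ℝ) : Prop where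
  Ca1 : 1 ≤ Ca
  CaB : Ca ≤ B
  Bbig : 2 ^ (d + 9) * d * C₁ * (1 / (1 - 1 / θ)) ≤ B
  pass : ∀ c₁ : ℂ, CEp d C₁ lam c₁ → ∀ (q : ℂ → ℂ) (s : ℝ) (k : ℕ), 0 < s → s ≤ 1 →
    DifferentiableOn ℂ q (ball (0 : ℂ) 8) → (∀ z ∈ ball (0 : ℂ) 8, ‖q z - c₁‖ ≤ s) →
    (∀ z ∈ ball (0 : ℂ) 8, ‖deriv q z‖ ≤ s) →
    (∀ j < k, B * θ ^ j * s * Pd d c₁ j ≤ ‖zz d c₁ j‖) → ∀ x ∈ ball c₁ (2 * s), ∀ j ≤ k,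
      ‖(fun z => z ^ d + q z)^[j] x - zz d c₁ j‖ ≤ Ca * s * Pd d c₁ j ∧
      3 / 4 * Pd d c₁ j ≤ ‖deriv ((fun z => z ^ d + q z)^[j]) x‖ ∧
      ‖deriv ((fun z => z ^ d + q z)^[j]) x‖ ≤ 2 * Pd d c₁ j ∧
      (j < k → ‖(fun z => z ^ d + q z)^[j] x - zz d c₁ j‖ ≤ 1 / 4 * ‖zz d c₁ j‖)

/-- The passage near the critical value. -/
def S_PA : Prop := ∀ (d : ℕ) (C₁ lam θ : ℝ), 2 ≤ d → 1 ≤ C₁ → 1 < lam → 1 < θ →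
  ∃ B Ca : ℝ, PC d C₁ lam θ B Ca

/-- Distortion of the iterates along a slow family. -/
def S_PUSH : Prop := ∀ (d : ℕ) (c₁ : ℂ) (r κ : ℝ) (h : ℂ → ℂ → ℂ) (w : ℂ) (ρ : ℝ) (m n : ℕ)
  (a b e : ℕ → ℝ), 2 ≤ d → 0 < ρ → Cv c₁ r κ w ρ h → m ≤ n →
  DifferentiableOn ℂ (GG d h m) (ball w ρ) →
  (∀ w' ∈ ball w ρ, ‖deriv (GG d h m) w' - DD d h m w‖ ≤ 1 / 16 * ‖DD d h m w‖) →
  (∀ j, 0 ≤ a j) → (∀ j, 0 ≤ b j) → (∀ j, 0 ≤ e j) → (∀ j < n, ‖GG d h j w‖ ≤ 4) →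
  (∀ j, m ≤ j → j < n → ‖DD d h j w‖ * ρ ≤ a j * ‖GG d h j w‖) →
  (∀ j, m ≤ j → j < n → κ ≤ b j * ‖DD d h (j + 1) w‖) →
  (∀ j, m ≤ j → j < n → r ≤ e j * ‖GG d h j w‖ ^ (d - 1)) →
  ∑ j ∈ Finset.Ico m n, (4 * d * a j + b j + 4 * e j) ≤ 1 / 8 →
  DifferentiableOn ℂ (GG d h n) (ball w ρ) ∧
  ∀ w' ∈ ball w ρ, ‖deriv (GG d h n) w' - DD d h n w‖ ≤ 1 / 4 * ‖DD d h n w‖

/-- Transfer of the area by a map with small distortion. -/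
def S_TR : Prop := ∀ (d : ℕ) (c₁ : ℂ) (r κ κ₀ : ℝ) (h : ℂ → ℂ → ℂ) (w : ℂ) (ρ : ℝ) (n : ℕ) (D : ℂ),
  2 ≤ d → 0 < ρ → Cv c₁ r κ₀ w ρ h → κ₀ ≤ 3 / 4 * (κ * ‖D‖) → D ≠ 0 → ‖D‖ * ρ ≤ 5 →
  DifferentiableOn ℂ (GG d h n) (ball w ρ) →
  (∀ w' ∈ ball w ρ, ‖deriv (GG d h n) w' - D‖ ≤ 1 / 4 * ‖D‖) →
  volume (BB d h ∩ closedBall w (ρ / 16)) ≤ ENNReal.ofReal (2 / ‖D‖ ^ 2) * SS d c₁ r κ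

/-- Perturbation of finitely many iterates. -/
def S_PE : Prop := ∀ (d N : ℕ), 2 ≤ d → ∃ C : ℝ, 0 < C ∧ ∀ (c₁ : ℂ) (r κ : ℝ) (u : ℂ) (T : ℝ)
  (h : ℂ → ℂ → ℂ), ‖c₁‖ ≤ 2 → 0 ≤ r → C * r ≤ 1 → Cv c₁ r κ u T h → ∀ n ≤ N,
    ∀ w ∈ ball u T, ‖w‖ ≤ 4 → (∀ j < n, ‖GG d h j w‖ ≤ 4 ∨ ‖(f d c₁)^[j] w‖ ≤ 4) →
    DifferentiableAt ℂ (GG d h n) w ∧
    ‖GG d h n w - (f d c₁)^[n] w‖ ≤ C * r ∧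
    ‖deriv (GG d h n) w - deriv ((f d c₁)^[n]) w‖ ≤ C * (r + κ) ∧
    ‖DD d h n w - deriv ((f d c₁)^[n]) w‖ ≤ C * r

/-- The conclusion of the passage lemma for one center. -/
def BIc (d : ℕ) (θ B ε : ℝ) (c₁ : ℂ) : Prop :=
  ∀ (s ρ r κ : ℝ) (k n : ℕ) (h : ℂ → ℂ → ℂ) (w : ℂ), 0 < s → s ≤ 1 → 0 < ρ →
  (∀ j < k, B * θ ^ j * s * Pd d c₁ j ≤ ‖zz d c₁ j‖) →
  Cv c₁ r κ w ρ h → r ≤ s → (∀ j ≤ n, ‖GG d h j w‖ ≤ 4) →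
  ‖GG d h n w‖ ^ d < s → GG d h n w ≠ 0 → DD d h n w ≠ 0 →
  DifferentiableOn ℂ (GG d h n) (ball w ρ) →
  (∀ w' ∈ ball w ρ, ‖deriv (GG d h n) w' - DD d h n w‖ ≤ 1 / 16 * ‖DD d h n w‖) →
  ‖DD d h n w‖ * ρ ≤ ε * ‖GG d h n w‖ →
  κ ≤ ε * (‖GG d h n w‖ ^ (d - 1) * ‖DD d h n w‖) →
  r ≤ ε * ‖GG d h n w‖ ^ (d - 1) →
  DifferentiableOn ℂ (GG d h (n + 1 + k)) (ball w ρ) ∧
  (∀ w' ∈ ball w ρ, ‖deriv (GG d h (n + 1 + k)) w' - DD d h (n + 1 + k) w‖ ≤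
    1 / 4 * ‖DD d h (n + 1 + k) w‖) ∧
  ‖DD d h n w‖ * (‖GG d h n w‖ ^ (d - 1) * Pd d c₁ k) ≤ ‖DD d h (n + 1 + k) w‖ ∧
  ‖DD d h (n + 1 + k) w‖ * ρ ≤ 5

/-- The passage near the critical point along a slow family. -/
def S_BI : Prop := ∀ (d : ℕ) (C₁ lam θ B Ca : ℝ), 2 ≤ d → 1 ≤ C₁ → 1 < lam → 1 < θ →
  PC d C₁ lam θ B Ca → ∃ ε : ℝ, 0 < ε ∧ ε ≤ 1 ∧ ∀ c₁ : ℂ, CEp d C₁ lam c₁ → BIc d θ B ε c₁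

/-- The start: lower bound of the derivative with respect to the parameter, for the families
`z ^ d + w + a z` (the critical value `w` is the parameter). -/
def S_START : Prop := ∀ (d : ℕ) (C₁ lam θ B Ca : ℝ), 2 ≤ d → 1 ≤ C₁ → 1 < lam → 1 < θ →
  PC d C₁ lam θ B Ca → ∀ c₀ : ℂ, CEp d C₁ lam c₀ → ∃ (κg e₀ s₀ : ℝ) (J : ℕ), 0 < κg ∧ 0 < e₀ ∧
    0 < s₀ ∧ s₀ ≤ 1 ∧ ∀ c₁ : ℂ, CEp d C₁ lam c₁ → ‖c₁ - c₀‖ ≤ e₀ → ∀ (a : ℂ → ℂ) (s : ℝ) (k : ℕ),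
    0 < s → s ≤ s₀ → J ≤ k → (∀ j < k, B * θ ^ j * s * Pd d c₁ j ≤ ‖zz d c₁ j‖) →
    DifferentiableOn ℂ a (ball (0 : ℂ) 8) → (∀ z ∈ ball (0 : ℂ) 8, ‖a z‖ ≤ s / 2) →
    (∀ z ∈ ball (0 : ℂ) 8, ‖deriv a z‖ ≤ s / 2) → ∀ v ∈ ball c₁ (s / 2),
      DifferentiableAt ℂ (GG d (fun w z => w + a z) k) v ∧
      κg * Pd d c₁ k ≤ ‖deriv (GG d (fun w z => w + a z) k) v‖

end Pool.Agent.Y298.GA
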