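import Mathlib
import Pool.Agent.H462R2.AP1

/-!
# Rational maps near `z ^ d + c₀`: the statements of the front end
-/

set_option autoImplicit false

open Set Filter Metric MeasureTheory Topology Polynomial
open scoped OnePoint

namespace Pool.Agent.Y298.GA

open Pool.Agent.H762R2.Rt Pool.Agent.Helper114.Herman

/-- `P` and `Q` have degree at most `d` and their coefficients are at distance at most `r` from those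
of `z ^ d + c₀` and `1`. -/
structure Nr (d : ℕ) (c₀ : ℂ) (r : ℝ) (P Q : ℂ[X]) : Prop where
  dP : P.natDegree ≤ d
  dQ : Q.natDegree ≤ d
  cP : ∀ i, ‖P.coeff i - (X ^ d + C c₀ : ℂ[X]).coeff i‖ ≤ r
  cQ : ∀ i, ‖Q.coeff i - (1 : ℂ[X]).coeff i‖ ≤ r

/-- Some critical point in the disc of radius `5 / 2` has its orbit in this disc (from its image
on). -/
def Bd (P Q : ℂ[X]) : Prop := ∃ z : ℂ, ‖z‖ ≤ 5 / 2 ∧ (wro P Q).eval z = 0 ∧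
  ∀ n : ℕ, ‖(fun y => P.eval y / Q.eval y)^[n] (P.eval z / Q.eval z)‖ ≤ 5 / 2

/-- Basic estimates. -/
def S_RBAS : Prop := ∀ d : ℕ, 2 ≤ d → ∃ K δ : ℝ, 1 ≤ K ∧ 0 < δ ∧ δ ≤ 1 ∧ ∀ (c₀ : ℂ) (r : ℝ)
  (P Q : ℂ[X]), ‖c₀‖ ≤ 2 → 0 ≤ r → r ≤ δ → Nr d c₀ r P Q →
    (∀ z ∈ ball (0 : ℂ) 9, 1 / 2 ≤ ‖Q.eval z‖) ∧
    (∀ z ∈ ball (0 : ℂ) 9, ‖P.eval z / Q.eval z - (z ^ d + c₀)‖ ≤ K * r) ∧
    (∀ z : ℂ, ‖z‖ ≤ 5 / 2 → (wro P Q).eval z = 0 → ‖P.eval z / Q.eval z - c₀‖ ≤ K * r) ∧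
    IsCoprime P Q ∧ Q ≠ 0 ∧ max P.natDegree Q.natDegree = d ∧ wro P Q ≠ 0

/-- The attracting fixed point near infinity attracts everything outside the disc of radius
`5 / 2`. -/
def S_RESC : Prop := ∀ d : ℕ, 2 ≤ d → ∃ δ : ℝ, 0 < δ ∧ δ ≤ 1 ∧ ∀ (c₀ : ℂ) (r : ℝ)
  (P Q : ℂ[X]) (f : OnePoint ℂ → OnePoint ℂ), ‖c₀‖ ≤ 2 → 0 ≤ r → r ≤ δ → Nr d c₀ r P Q →
    IsRat f P Q → Sinks f ∞ ∧ ∀ z : ℂ, 5 / 2 < ‖z‖ → Sinks f (z : OnePoint ℂ)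

/-- The criterion of hyperbolicity. -/
def S_RHYP : Prop := ∀ d : ℕ, 2 ≤ d → ∃ δ : ℝ, 0 < δ ∧ δ ≤ 1 ∧ ∀ (c₀ : ℂ) (r : ℝ)
  (P Q : ℂ[X]), ‖c₀‖ ≤ 2 → 0 ≤ r → r ≤ δ → Nr d c₀ r P Q → ¬ Bd P Q → Hyp P Q

/-- The denominators `1 + b 0 X + … + b (d - 1) X ^ d`. -/
noncomputable def den {d : ℕ} (b : Fin d → ℂ) : ℂ[X] := 1 + ∑ k : Fin d, C (b k) * X ^ ((k : ℕ) + 1)

/-- The numerators `X ^ d + c₀ + a 0 + a 1 X + … + a d X ^ d`. -/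
noncomputable def num {d : ℕ} (c₀ : ℂ) (a : Fin (d + 1) → ℂ) : ℂ[X] :=
  X ^ d + C c₀ + ∑ k : Fin (d + 1), C (a k) * X ^ (k : ℕ)

/-- The coefficient vector of the denominator. -/
def ev {d : ℕ} (b : Fin d → ℂ) : Fin (d + 1) → ℂ := Fin.cons 1 b

/-- The bad maps form a closed set in the space of the coefficients. -/
def S_RMEA : Prop := ∀ d : ℕ, 2 ≤ d → ∃ δ : ℝ, 0 < δ ∧ δ ≤ 1 ∧ ∀ (c₀ : ℂ) (r : ℝ), ‖c₀‖ ≤ 2 →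
  r ≤ δ → IsClosed {x : (Fin d → ℂ) × (Fin (d + 1) → ℂ) | ‖x‖ ≤ r ∧ Bd (num c₀ x.2) (den x.1)}

/-- The shear argument. -/
def S_RSHE : Prop := ∀ (d : ℕ) (B : Set ((Fin d → ℂ) × (Fin (d + 1) → ℂ))) (r S : ℝ),
  MeasurableSet B → 0 < r → r ≤ 1 → 0 ≤ S → B ⊆ closedBall 0 r →
  (∀ x : (Fin d → ℂ) × (Fin (d + 1) → ℂ), ‖x‖ ≤ 2 * r →
    volume {t : ℂ | ‖t‖ ≤ r ∧ (x.1, x.2 + t • ev x.1) ∈ B} ≤ ENNReal.ofReal S) →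
  volume B ≤ ENNReal.ofReal (4 ^ (2 * d + 1) * S / (Real.pi * r ^ 2)) *
    volume (closedBall (0 : (Fin d → ℂ) × (Fin (d + 1) → ℂ)) r)

end Pool.Agent.Y298.GA
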