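import Mathlib
import Pool.Agent.Y298.GA.Sup

/-!
# Slow families: good radii at the points of bounded orbit
-/

set_option autoImplicit false

open Set Filter Metric MeasureTheory

namespace Pool.Agent.Y298.GA

open Pool.Agent.TH279.MD Pool.Agent.Y298.SH Pool.Agent.Y298.SH.CD
open Pool.Agent.Y298.CA (VV BRc S_COV S_ME S_ONE S_BR S_NH S_PS S_RA S_RB one_le_of VV_iter)

variable {d : ℕ} {c₁ : ℂ} {θ B ε K₁ δ Γ A' CN Rd : ℝ} {N : ℕ}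

/-- the orbit of the base map stays away from the critical point -/
theorem Ctx.away (X : Ctx d θ B ε K₁ δ Γ A' CN Rd N c₁) {r κ : ℝ} {u : ℂ} {T : ℝ} {γ : ℂ → ℂ → ℂ}
    (hr0 : 0 ≤ r) (hr1 : CN * r ≤ 1) (hCv : Cv c₁ r κ u T γ) {w : ℂ} (hwu : w ∈ ball u T)
    (hwB : w ∈ BB d γ)
    (hw4 : ‖w‖ ≤ 4) {n : ℕ} (hn : n ≤ N) (hfar : ∀ j < n, 5 / 2 * δ ≤ ‖GG d γ j w‖)
    (hr2 : CN * r ≤ δ / 8) : ∀ j < n, 19 / 8 * δ ≤ ‖(f d c₁)^[j] w‖ := by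
  intro j hj
  have h1 := (X.pe r κ u T γ hr0 hr1 hCv j (by omega) w hwu hw4 fun i _ =>
    Or.inl ((hwB i).trans (by norm_num))).2.1
  have h2 := hfar j hj
  have h3 : ‖GG d γ j w‖ ≤ ‖GG d γ j w - (f d c₁)^[j] w‖ + ‖(f d c₁)^[j] w‖ := by
    calc ‖GG d γ j w‖ = ‖(GG d γ j w - (f d c₁)^[j] w) + (f d c₁)^[j] w‖ := by congr 1; ring
      _ ≤ _ := norm_add_le _ _
  linarith

/-- **The local geometry**, common part. Here `G` bounds the truncated iterates and `R` is the radius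
of the branch lemma. -/
theorem Ctx.common (X : Ctx d θ B ε K₁ δ Γ A' CN Rd N c₁) {r κ : ℝ} {u : ℂ} {T : ℝ} {γ : ℂ → ℂ → ℂ}
    (hr0 : 0 ≤ r) (hr1 : CN * r ≤ 1) (hκ0 : 0 ≤ κ) (hCv : Cv c₁ r κ u T γ)
    (hu4 : ∀ w' ∈ ball u T, ‖w'‖ ≤ 4) {w : ℂ} (hwu : w ∈ ball u (T / 2)) (hwB : w ∈ BB d γ)
    {n : ℕ} (hn : n ≤ N)
    (hfar : ∀ j < n, 5 / 2 * δ ≤ ‖GG d γ j w‖) (hr2 : CN * r ≤ δ / 8) {G R : ℝ} (hG1 : 1 ≤ G)
    (hpsi : ∀ j ≤ n, psi d δ c₁ j ((f d c₁)^[n] w) ≤ G)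
    (hBR : w ∈ VV d δ c₁ n → BRc K₁ R d c₁ n w)
    (hrκ : CN * (r + κ) * √G * 100 ≤ 1) {ρ : ℝ} (hρ0 : 0 < ρ) (hρT : ρ ≤ T / 2)
    (hρR : 2 * K₁ * (‖DD d γ n w‖ * ρ) ≤ R) (hρδ : K₁ * √G * (‖DD d γ n w‖ * ρ) ≤ 5 * δ) :
    DifferentiableOn ℂ (GG d γ n) (ball w ρ) ∧
    (∀ w' ∈ ball w ρ, ‖deriv (GG d γ n) w' - DD d γ n w‖ ≤ 1 / 16 * ‖DD d γ n w‖) ∧
    1 ≤ 2 * √G * ‖DD d γ n w‖ ∧
    ∀ w' ∈ closedBall w (ρ / 80), w' ∈ VV d δ c₁ n ∧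
      ‖(f d c₁)^[n] w' - (f d c₁)^[n] w‖ ≤ K₁ * (‖DD d γ n w‖ * ρ) / 60 := by
  have hK1 := X.K1
  have hδ := X.δ0
  have hCN := X.CN0
  have hsub : ball u (T / 2) ⊆ ball u T := by
    intro z hz
    rw [mem_ball] at hz ⊢
    have : 0 < T := by linarith
    linarith
  have hwT := hsub hwu
  have hballT : ball w ρ ⊆ ball u T := by
    intro z hz
    rw [mem_ball] at hz hwu ⊢
    linarith [dist_triangle z w u]
  have haway := X.away hr0 hr1 hCv hwT hwB (hu4 w hwT) hn hfar hr2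
  have hVV : w ∈ VV d δ c₁ n := fun j hj => by
    have := haway j hj
    linarith
  obtain ⟨hD0, hbr⟩ := hBR hVV
  have hone := X.one n w hVV
  have hG0 : 0 < G := by linarith
  have hsG : 1 ≤ √G := Real.one_le_sqrt.mpr hG1
  have hone' := one_le_of hone (hpsi n le_rfl) (norm_nonneg _) hG0
  set D := deriv ((f d c₁)^[n]) w with hD
  set E := DD d γ n w with hE
  obtain ⟨-, -, -, hpe3⟩ := X.pe r κ u T γ hr0 hr1 hCv n hn w hwT (hu4 w hwT) fun i _ =>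
    Or.inl ((hwB i).trans (by norm_num))
  have hCr : CN * r * √G * 100 ≤ 1 := by
    have : 0 ≤ CN * κ * √G := by positivity
    nlinarith
  have hDr : CN * r ≤ 1 / 100 * ‖D‖ := by
    have h1 : (CN * r) * 1 ≤ (CN * r) * (√G * ‖D‖) := by gcongr
    nlinarith [norm_nonneg D]
  have hDrκ : CN * (r + κ) ≤ 1 / 100 * ‖D‖ := by
    have h0 : 0 ≤ CN * (r + κ) := by positivity
    have h1 : (CN * (r + κ)) * 1 ≤ (CN * (r + κ)) * (√G * ‖D‖) := by gcongr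
    nlinarith [norm_nonneg D]
  have hED : ‖E - D‖ ≤ 1 / 100 * ‖D‖ := hpe3.trans hDr
  have hE1 : ‖D‖ ≤ 102 / 100 * ‖E‖ := by
    have h1 : ‖D‖ ≤ ‖E‖ + ‖E - D‖ := by
      calc ‖D‖ = ‖E - (E - D)‖ := by congr 1; ring
        _ ≤ _ := norm_sub_le _ _
    have h2 : 99 / 100 * ‖D‖ ≤ ‖E‖ := by linarith
    linarith [norm_nonneg E]
  have hE2 : ‖D‖ ≤ 2 * ‖E‖ := by linarith [norm_nonneg E]
  have hE0 : 0 < ‖E‖ := by linarith
  -- the radius condition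
  have hrad : ∀ w' : ℂ, ‖w' - w‖ ≤ ρ → K₁ * (‖D‖ * ‖w' - w‖) ≤ R := by
    intro w' hw'
    refine le_trans ?_ hρR
    calc K₁ * (‖D‖ * ‖w' - w‖) ≤ K₁ * ((2 * ‖E‖) * ρ) := by gcongr
      _ = _ := by ring
  have hδ5 := X.δ5
  -- the frozen orbits of the points of the ball stay bounded
  have hfr : ∀ w' ∈ ball w ρ, ∀ j < n, ‖(f d c₁)^[j] w'‖ ≤ 4 := by
    intro w' hw' j hj
    rw [mem_ball, dist_eq_norm] at hw'
    obtain ⟨-, h1⟩ := hbr w' (hrad w' hw'.le)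
    have h4 := h1 j hj.le
    have h5 := X.one (n - j) _ (VV_iter hVV hj.le)
    rw [← Function.iterate_add_apply, Nat.sub_add_cancel hj.le] at h5
    have h6 := one_le_of h5 (hpsi (n - j) (by omega)) (norm_nonneg _) hG0
    set Dj := deriv ((f d c₁)^[n - j]) ((f d c₁)^[j] w)
    have h7 : ‖(f d c₁)^[j] w' - (f d c₁)^[j] w‖ ≤ √G * (K₁ * ((102 / 100 * ‖E‖) * ρ)) := by
      calc ‖(f d c₁)^[j] w' - (f d c₁)^[j] w‖
          ≤ ‖(f d c₁)^[j] w' - (f d c₁)^[j] w‖ * (√G * ‖Dj‖) :=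
            le_mul_of_one_le_right (norm_nonneg _) h6
        _ = √G * (‖(f d c₁)^[j] w' - (f d c₁)^[j] w‖ * ‖Dj‖) := by ring
        _ ≤ √G * (K₁ * (‖D‖ * ‖w' - w‖)) := by gcongr
        _ ≤ _ := by gcongr
    have h8 : √G * (K₁ * ((102 / 100 * ‖E‖) * ρ)) ≤ 102 / 100 := by
      calc √G * (K₁ * ((102 / 100 * ‖E‖) * ρ)) = 102 / 100 * (K₁ * √G * (‖E‖ * ρ)) := by ring
        _ ≤ 102 / 100 * (5 * δ) := by gcongr
        _ ≤ _ := by linarith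
    have h9 : ‖(f d c₁)^[j] w‖ ≤ 5 / 2 + CN * r := by
      have h10 := (X.pe r κ u T γ hr0 hr1 hCv j (by omega) w hwT (hu4 w hwT) fun i _ =>
        Or.inl ((hwB i).trans (by norm_num))).2.1
      calc ‖(f d c₁)^[j] w‖ = ‖GG d γ j w - (GG d γ j w - (f d c₁)^[j] w)‖ := by congr 1; ring
        _ ≤ ‖GG d γ j w‖ + ‖GG d γ j w - (f d c₁)^[j] w‖ := norm_sub_le _ _
        _ ≤ _ := by
            gcongr
            exact hwB j
    have h11 : ‖(f d c₁)^[j] w'‖ ≤ ‖(f d c₁)^[j] w‖ + ‖(f d c₁)^[j] w' - (f d c₁)^[j] w‖ := by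
      calc ‖(f d c₁)^[j] w'‖ = ‖(f d c₁)^[j] w + ((f d c₁)^[j] w' - (f d c₁)^[j] w)‖ := by
            congr 1; ring
        _ ≤ _ := norm_add_le _ _
    linarith
  refine ⟨?_, ?_, ?_, ?_⟩
  · intro w' hw'
    exact (X.pe r κ u T γ hr0 hr1 hCv n hn w' (hballT hw') (hu4 w' (hballT hw')) fun j hj =>
      Or.inr (hfr w' hw' j hj)).1.differentiableWithinAt
  · intro w' hw'
    have hw2 := hw'
    rw [mem_ball, dist_eq_norm] at hw2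
    obtain ⟨h1, -⟩ := hbr w' (hrad w' hw2.le)
    obtain ⟨-, -, h2, -⟩ := X.pe r κ u T γ hr0 hr1 hCv n hn w' (hballT hw') (hu4 w' (hballT hw'))
      fun j hj => Or.inr (hfr w' hw' j hj)
    have h3 : deriv (GG d γ n) w' - E = (deriv (GG d γ n) w' - deriv ((f d c₁)^[n]) w') +
        ((deriv ((f d c₁)^[n]) w' - D) - (E - D)) := by ring
    rw [h3]
    calc _ ≤ ‖deriv (GG d γ n) w' - deriv ((f d c₁)^[n]) w'‖ +
          ‖(deriv ((f d c₁)^[n]) w' - D) - (E - D)‖ := norm_add_le _ _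
      _ ≤ CN * (r + κ) + (1 / 32 * ‖D‖ + 1 / 100 * ‖D‖) := by
          gcongr
          exact (norm_sub_le _ _).trans (add_le_add h1 hED)
      _ ≤ 1 / 16 * ‖E‖ := by linarith
  · have h1 : √G * ‖D‖ ≤ √G * (2 * ‖E‖) := by gcongr
    linarith
  · intro w' hw'
    rw [mem_closedBall, dist_eq_norm] at hw'
    obtain ⟨-, h1⟩ := hbr w' (hrad w' (by linarith))
    have h2 : K₁ * (‖D‖ * ‖w' - w‖) ≤ K₁ * (‖E‖ * ρ) / 60 := by
      calc K₁ * (‖D‖ * ‖w' - w‖) ≤ K₁ * ((102 / 100 * ‖E‖) * (ρ / 80)) := by gcongr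
        _ = (102 / 8000) * (K₁ * (‖E‖ * ρ)) := by ring
        _ ≤ _ := by
            have : 0 ≤ K₁ * (‖E‖ * ρ) := by positivity
            linarith
    refine ⟨?_, ?_⟩
    · intro j hj
      have h3 := haway j hj
      have h4 := h1 j hj.le
      -- the derivative from `j` to `n`
      have h5 := X.one (n - j) _ (VV_iter hVV hj.le)
      rw [← Function.iterate_add_apply, Nat.sub_add_cancel hj.le] at h5
      have h6 := one_le_of h5 (hpsi (n - j) (by omega)) (norm_nonneg _) hG0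
      set Dj := deriv ((f d c₁)^[n - j]) ((f d c₁)^[j] w)
      have h7 : ‖(f d c₁)^[j] w' - (f d c₁)^[j] w‖ ≤ √G * (K₁ * (‖E‖ * ρ) / 60) := by
        calc ‖(f d c₁)^[j] w' - (f d c₁)^[j] w‖
            ≤ ‖(f d c₁)^[j] w' - (f d c₁)^[j] w‖ * (√G * ‖Dj‖) :=
              le_mul_of_one_le_right (norm_nonneg _) h6
          _ = √G * (‖(f d c₁)^[j] w' - (f d c₁)^[j] w‖ * ‖Dj‖) := by ring
          _ ≤ _ := by gcongr; exact h4.trans h2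
      have h8 : √G * (K₁ * (‖E‖ * ρ) / 60) ≤ 1 / 12 * δ := by
        calc √G * (K₁ * (‖E‖ * ρ) / 60) = K₁ * √G * (‖E‖ * ρ) / 60 := by ring
          _ ≤ 5 * δ / 60 := by gcongr
          _ = _ := by ring
      have h9 : ‖(f d c₁)^[j] w‖ ≤ ‖(f d c₁)^[j] w'‖ + ‖(f d c₁)^[j] w' - (f d c₁)^[j] w‖ := by
        calc ‖(f d c₁)^[j] w‖ = ‖(f d c₁)^[j] w' - ((f d c₁)^[j] w' - (f d c₁)^[j] w)‖ := by
              congr 1; ring
          _ ≤ _ := norm_sub_le _ _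
      linarith
    · have h3 := h1 n le_rfl
      rw [Nat.sub_self, Function.iterate_zero] at h3
      have h4 : deriv (id : ℂ → ℂ) ((f d c₁)^[n] w) = 1 := by simp
      rw [h4, norm_one, mul_one] at h3
      exact h3.trans h2

/-- **Entrances near the critical point.** -/
theorem Ctx.entry (X : Ctx d θ B ε K₁ δ Γ A' CN Rd N c₁) (htr : S_TR) {r κ : ℝ} {u : ℂ} {T : ℝ}
    {γ : ℂ → ℂ → ℂ}
    (hr0 : 0 ≤ r) (hr1 : CN * r ≤ 1) (hκ0 : 0 ≤ κ) (hT : 0 < T) (hCv : Cv c₁ r κ u T γ)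
    (hu4 : ∀ w' ∈ ball u T, ‖w'‖ ≤ 4) {w : ℂ} (hwu : w ∈ ball u (T / 2)) (hwB : w ∈ BB d γ)
    {n : ℕ} (hn : n ≤ N)
    (hfar : ∀ j < n, 5 / 2 * δ ≤ ‖GG d γ j w‖) (hr2 : CN * r ≤ δ / 8)
    (hrκ : CN * (r + κ) * √Γ * 100 ≤ 1) {x : ℝ} (hx : ‖GG d γ n w‖ = x) (hx0 : 0 < x)
    (hxδ : x ≤ 5 / 2 * δ) (hr3 : CN * r ≤ x / 4) {s : ℝ} {k : ℕ} (hs0 : 0 < s) (hs1 : s ≤ 1)
    (hrs : r ≤ s) (hxs : x ^ d < s) (hk : ∀ j < k, B * θ ^ j * s * Pd d c₁ j ≤ ‖zz d c₁ j‖)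
    (hκ : 2 * √Γ * κ ≤ ε * x ^ (d - 1)) (hrx : r ≤ ε * x ^ (d - 1)) (hbig : 4 * √Γ ≤ x ^ (d - 1) * Pd d c₁ k) {ρ : ℝ}
    (hρ : ρ = min (T / 2) (ε / (10 * K₁ * √Γ) * x / ‖DD d γ n w‖)) :
    ∃ m : ℕ, 0 < ρ ∧ ρ ≤ T / 2 ∧ 2 ≤ ‖DD d γ m w‖ ∧
      volume (BB d γ ∩ closedBall w (ρ / 16)) ≤
        ENNReal.ofReal (2 / ‖DD d γ m w‖ ^ 2) * SS d c₁ r κ ∧
      ‖DD d γ n w‖ * (x ^ (d - 1) * Pd d c₁ k) ≤ ‖DD d γ m w‖ ∧
      1 ≤ 2 * √Γ * ‖DD d γ n w‖ ∧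
      ∀ w' ∈ closedBall w (ρ / 80), w' ∈ VV d δ c₁ n ∧ ‖(f d c₁)^[n] w'‖ ≤ 2 * x ∧
        ‖(f d c₁)^[n] w'‖ ≤ 3 * δ := by
  have hK1 := X.K1
  have hδ := X.δ0
  have hCN := X.CN0
  have hΓ1 := X.Γ1
  have hε0 := X.ε0
  have hε1 := X.ε1
  have hsG : 1 ≤ √Γ := Real.one_le_sqrt.mpr hΓ1
  have hsub : ball u (T / 2) ⊆ ball u T := ball_subset_ball (by linarith)
  have hwT := hsub hwu
  have hw4 := hu4 w hwT
  have hwj : ∀ j < n, ‖GG d γ j w‖ ≤ 4 ∨ ‖(f d c₁)^[j] w‖ ≤ 4 := fun i _ =>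
    Or.inl ((hwB i).trans (by norm_num))
  obtain ⟨-, hpe1, -, -⟩ := X.pe r κ u T γ hr0 hr1 hCv n hn w hwT hw4 hwj
  have hend : ‖(f d c₁)^[n] w‖ ≤ x + CN * r := by
    calc ‖(f d c₁)^[n] w‖ = ‖GG d γ n w - (GG d γ n w - (f d c₁)^[n] w)‖ := by congr 1; ring
      _ ≤ ‖GG d γ n w‖ + ‖GG d γ n w - (f d c₁)^[n] w‖ := norm_sub_le _ _
      _ ≤ _ := by rw [hx]; gcongr
  have hend3 : ‖(f d c₁)^[n] w‖ ≤ 3 * δ := by linarith
  have hpsi : ∀ j ≤ n, psi d δ c₁ j ((f d c₁)^[n] w) ≤ Γ := by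
    intro j hj
    refine le_trans ?_ (X.h1 _ hend3)
    exact Finset.single_le_sum (f := fun j => psi d δ c₁ j ((f d c₁)^[n] w))
      (fun i _ => psi_nonneg hδ c₁ i _) (Finset.mem_range.mpr (by omega))
  -- the derivative does not vanish
  have haway := X.away hr0 hr1 hCv hwT hwB hw4 hn hfar hr2
  have hVV : w ∈ VV d δ c₁ n := fun j hj => by
    have := haway j hj
    linarith
  have hone' := one_le_of (X.one n w hVV) (hpsi n le_rfl) (norm_nonneg _) (by linarith)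
  obtain ⟨-, -, -, hpe3⟩ := X.pe r κ u T γ hr0 hr1 hCv n hn w hwT hw4 hwj
  have hE0 : 0 < ‖DD d γ n w‖ := by
    by_contra hcon
    have h1 : DD d γ n w = 0 := norm_le_zero_iff.mp (not_lt.mp hcon)
    rw [h1, zero_sub, norm_neg] at hpe3
    have h2 : √Γ * ‖deriv ((f d c₁)^[n]) w‖ ≤ √Γ * (CN * r) := by gcongr
    have h3 : 0 ≤ CN * κ * √Γ := by positivity
    nlinarith
  set E := ‖DD d γ n w‖ with hE
  set η : ℝ := ε / (10 * K₁ * √Γ) with hη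
  have hη0 : 0 < η := by positivity
  have hηε : η ≤ ε := by
    rw [hη, div_le_iff₀ (by positivity)]
    have : 1 ≤ 10 * K₁ * √Γ := by nlinarith
    nlinarith
  have hηK : 10 * K₁ * √Γ * η = ε := by rw [hη]; field_simp
  have hρ0 : 0 < ρ := by
    rw [hρ]
    exact lt_min (by positivity) (by positivity)
  have hρT : ρ ≤ T / 2 := by rw [hρ]; exact min_le_left _ _
  have hρx : E * ρ ≤ η * x := by
    have h1 : ρ ≤ η * x / E := by rw [hρ]; exact min_le_right _ _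
    rw [le_div_iff₀ hE0] at h1
    linarith
  have hKηx : K₁ * √Γ * (η * x) ≤ x / 10 := by
    have : K₁ * √Γ * (η * x) = (10 * K₁ * √Γ * η) * x / 10 := by ring
    rw [this, hηK]
    have : ε * x ≤ 1 * x := by gcongr
    linarith
  have hKηx' : K₁ * (η * x) ≤ x / 10 := by
    refine le_trans ?_ hKηx
    have : 0 ≤ K₁ * (η * x) := by positivity
    nlinarith
  obtain ⟨c0, c1, c2, c3⟩ := X.common hr0 hr1 hκ0 hCv hu4 hwu hwB hn hfar hr2 hΓ1 hpsi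
    (fun h => X.br1 n w h hend3) hrκ hρ0 hρT (by
      calc 2 * K₁ * (E * ρ) ≤ 2 * (K₁ * (η * x)) := by
            rw [mul_assoc]
            gcongr
        _ ≤ 2 * (x / 10) := by gcongr
        _ ≤ δ / 2 := by
            have : x ≤ 5 / 2 * δ := hxδ
            linarith) (by
      calc K₁ * √Γ * (E * ρ) ≤ K₁ * √Γ * (η * x) := by gcongr
        _ ≤ x / 10 := hKηx
        _ ≤ 5 * δ := by linarith)
  have hballT : ball w ρ ⊆ ball u T := by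
    intro z hz
    rw [mem_ball] at hz hwu ⊢
    linarith [dist_triangle z w u]
  -- the passage
  obtain ⟨p0, p1, p2, p3⟩ := X.bi s ρ r κ k n γ w hs0 hs1 hρ0 hk (hCv.mono hballT) hrs
    (fun j _ => (hwB j).trans (by norm_num)) (by rw [hx]; exact hxs)
    (by
      rw [← norm_pos_iff, hx]
      exact hx0) (norm_pos_iff.mp hE0) c0 c1 (by
      rw [hx]
      exact hρx.trans (by gcongr)) (by
      rw [hx]
      have h1 : κ ≤ κ * (2 * √Γ * E) := le_mul_of_one_le_right hκ0 c2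
      calc κ ≤ κ * (2 * √Γ * E) := h1
        _ = (2 * √Γ * κ) * E := by ring
        _ ≤ (ε * x ^ (d - 1)) * E := by gcongr
        _ = _ := by ring) (by
      rw [hx]
      exact hrx)
  rw [hx] at p2
  have hm2 : 2 ≤ ‖DD d γ (n + 1 + k) w‖ := by
    refine le_trans ?_ p2
    calc (2 : ℝ) ≤ E * (4 * √Γ) := by nlinarith
      _ ≤ _ := by gcongr
  refine ⟨n + 1 + k, hρ0, hρT, hm2, ?_, p2, c2, ?_⟩
  · refine htr d c₁ r κ κ γ w ρ (n + 1 + k) (DD d γ (n + 1 + k) w) X.hd hρ0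
      (hCv.mono hballT) ?_ ?_ p3 p0 p1
    · have : κ * 2 ≤ κ * ‖DD d γ (n + 1 + k) w‖ := by gcongr
      linarith
    · exact norm_pos_iff.mp (by linarith)
  · intro w' hw'
    obtain ⟨h1, h2⟩ := c3 w' hw'
    have h3 : K₁ * (E * ρ) / 60 ≤ x / 8 := by
      have h4 : K₁ * (E * ρ) ≤ K₁ * (η * x) := by gcongr
      have h5 : 0 < x / 8 := by positivity
      linarith
    have h6 : ‖(f d c₁)^[n] w'‖ ≤ ‖(f d c₁)^[n] w‖ + x / 8 := by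
      calc ‖(f d c₁)^[n] w'‖ = ‖(f d c₁)^[n] w + ((f d c₁)^[n] w' - (f d c₁)^[n] w)‖ := by
            congr 1; ring
        _ ≤ ‖(f d c₁)^[n] w‖ + ‖(f d c₁)^[n] w' - (f d c₁)^[n] w‖ := norm_add_le _ _
        _ ≤ _ := by gcongr; exact h2.trans h3
    exact ⟨h1, by linarith, by linarith⟩

/-- **Points without entrance.** -/
theorem Ctx.surv (X : Ctx d θ B ε K₁ δ Γ A' CN Rd N c₁) (htr : S_TR) {r κ : ℝ} {u : ℂ} {T : ℝ}
    {γ : ℂ → ℂ → ℂ}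
    (hr0 : 0 ≤ r) (hr1 : CN * r ≤ 1) (hκ0 : 0 ≤ κ) (hT : 0 < T) (hCv : Cv c₁ r κ u T γ)
    (hu4 : ∀ w' ∈ ball u T, ‖w'‖ ≤ 4) {w : ℂ} (hwu : w ∈ ball u (T / 2)) (hwB : w ∈ BB d γ)
    (hfar : ∀ j < N, 5 / 2 * δ ≤ ‖GG d γ j w‖) (hr2 : CN * r ≤ δ / 8) (hr3 : CN * r ≤ 1)
    (hrκ : CN * (r + κ) * √A' * 100 ≤ 1) {ε' : ℝ} (hε'0 : 0 < ε') (hε' : ε' ≤ 1 / 16)
    (hpsi : ∀ w : ℂ, ‖w‖ ≤ 4 → psi d δ c₁ N w ≤ ε') {Ra : ℝ} (hRa0 : 0 < Ra) (hRa1 : 2 * K₁ * Ra ≤ Rd)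
    (hRa2 : K₁ * √A' * Ra ≤ 5 * δ) (hRa3 : K₁ * Ra ≤ 1) {ρ : ℝ}
    (hρ : ρ = min (T / 2) (Ra / ‖DD d γ N w‖)) :
    0 < ρ ∧ ρ ≤ T / 2 ∧ 2 ≤ ‖DD d γ N w‖ ∧
      volume (BB d γ ∩ closedBall w (ρ / 16)) ≤
        ENNReal.ofReal (2 / ‖DD d γ N w‖ ^ 2) * SS d c₁ r κ ∧
      1 ≤ 4 * ε' * ‖DD d γ N w‖ ^ 2 ∧
      ∀ w' ∈ closedBall w (ρ / 80), w' ∈ VV d δ c₁ N ∧ ‖(f d c₁)^[N] w'‖ ≤ 4 := by
  have hK1 := X.K1
  have hδ := X.δ0
  have hCN := X.CN0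
  have hA1 := X.A1
  have hsA : 1 ≤ √A' := Real.one_le_sqrt.mpr hA1
  have hsub : ball u (T / 2) ⊆ ball u T := ball_subset_ball (by linarith)
  have hwT := hsub hwu
  have hw4 := hu4 w hwT
  have hwj : ∀ j < N, ‖GG d γ j w‖ ≤ 4 ∨ ‖(f d c₁)^[j] w‖ ≤ 4 := fun i _ =>
    Or.inl ((hwB i).trans (by norm_num))
  obtain ⟨-, hpe1, -, hpe3⟩ := X.pe r κ u T γ hr0 hr1 hCv N le_rfl w hwT hw4 hwj
  have hend : ‖(f d c₁)^[N] w‖ ≤ 5 / 2 + CN * r := by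
    calc ‖(f d c₁)^[N] w‖ = ‖GG d γ N w - (GG d γ N w - (f d c₁)^[N] w)‖ := by congr 1; ring
      _ ≤ ‖GG d γ N w‖ + ‖GG d γ N w - (f d c₁)^[N] w‖ := norm_sub_le _ _
      _ ≤ _ := by
          gcongr
          exact hwB N
  have hδ5 := X.δ5
  have hend4 : ‖(f d c₁)^[N] w‖ ≤ 4 := by linarith
  have haway := X.away hr0 hr1 hCv hwT hwB hw4 le_rfl hfar hr2
  have hVV : w ∈ VV d δ c₁ N := fun j hj => by
    have := haway j hj
    linarith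
  -- lower bounds of the derivative
  have hone := X.one N w hVV
  have h1 := one_le_of hone (hpsi _ hend4) (norm_nonneg _) hε'0
  have h1' := one_le_of hone (X.h2 N le_rfl _ hend4) (norm_nonneg _) (by linarith)
  set D := deriv ((f d c₁)^[N]) w with hD
  set E := ‖DD d γ N w‖ with hE
  have hDr : CN * r ≤ 1 / 100 * ‖D‖ := by
    have h2 : (CN * r) * 1 ≤ (CN * r) * (√A' * ‖D‖) := by gcongr
    have h3 : 0 ≤ CN * κ * √A' := by positivity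
    nlinarith [norm_nonneg D]
  have hDE : ‖D‖ ≤ 2 * E := by
    have h2 : ‖D‖ ≤ E + ‖DD d γ N w - D‖ := by
      calc ‖D‖ = ‖DD d γ N w - (DD d γ N w - D)‖ := by congr 1; ring
        _ ≤ _ := norm_sub_le _ _
    have h3 := hpe3.trans hDr
    have h4 : 99 / 100 * ‖D‖ ≤ E := by linarith
    linarith [norm_nonneg D]
  have hs4 : √ε' ≤ 1 / 4 := by
    rw [Real.sqrt_le_left (by norm_num)]
    norm_num
    exact hε'
  have hE2 : 2 ≤ E := by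
    have h2 : √ε' * ‖D‖ ≤ 1 / 4 * (2 * E) := by gcongr
    linarith
  have hE0 : 0 < E := by linarith
  have hρ0 : 0 < ρ := by
    rw [hρ]
    exact lt_min (by positivity) (by positivity)
  have hρT : ρ ≤ T / 2 := by rw [hρ]; exact min_le_left _ _
  have hρx : E * ρ ≤ Ra := by
    have h1 : ρ ≤ Ra / E := by rw [hρ]; exact min_le_right _ _
    rw [le_div_iff₀ hE0] at h1
    linarith
  obtain ⟨c0, c1, -, c3⟩ := X.common hr0 hr1 hκ0 hCv hu4 hwu hwB le_rfl hfar hr2 hA1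
    (fun j hj => X.h2 j hj _ hend4) (fun h => X.br2 N w h) hrκ hρ0 hρT (by
      calc 2 * K₁ * (E * ρ) ≤ 2 * K₁ * Ra := by gcongr
        _ ≤ _ := hRa1) (by
      calc K₁ * √A' * (E * ρ) ≤ K₁ * √A' * Ra := by gcongr
        _ ≤ _ := hRa2)
  have hballT : ball w ρ ⊆ ball u T := by
    intro z hz
    rw [mem_ball] at hz hwu ⊢
    linarith [dist_triangle z w u]
  refine ⟨hρ0, hρT, hE2, ?_, ?_, ?_⟩
  · refine htr d c₁ r κ κ γ w ρ N (DD d γ N w) X.hd hρ0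
      (hCv.mono hballT) ?_ ?_ ?_ c0 ?_
    · have : κ * 2 ≤ κ * E := by gcongr
      linarith
    · exact norm_pos_iff.mp (by linarith)
    · have h5 : 1 * Ra ≤ K₁ * Ra := by gcongr
      linarith
    · intro w' hw'
      refine (c1 w' hw').trans ?_
      have := norm_nonneg (DD d γ N w)
      linarith
  · have h5 : (√ε' * ‖D‖) ^ 2 = ε' * ‖D‖ ^ 2 := by rw [mul_pow, Real.sq_sqrt hε'0.le]
    have h6 : 1 ≤ (√ε' * ‖D‖) ^ 2 := one_le_pow₀ h1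
    rw [h5] at h6
    calc 1 ≤ ε' * ‖D‖ ^ 2 := h6
      _ ≤ ε' * (2 * E) ^ 2 := by gcongr
      _ = _ := by ring
  · intro w' hw'
    obtain ⟨h2, h3⟩ := c3 w' hw'
    refine ⟨h2, ?_⟩
    have h4 : K₁ * (E * ρ) / 60 ≤ 1 := by
      have h5 : K₁ * (E * ρ) ≤ K₁ * Ra := by gcongr
      linarith
    calc ‖(f d c₁)^[N] w'‖ = ‖(f d c₁)^[N] w + ((f d c₁)^[N] w' - (f d c₁)^[N] w)‖ := by
          congr 1; ring
      _ ≤ ‖(f d c₁)^[N] w‖ + ‖(f d c₁)^[N] w' - (f d c₁)^[N] w‖ := norm_add_le _ _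
      _ ≤ 4 := by linarith

end Pool.Agent.Y298.GA
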