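import Mathlib
import Pool.Agent.Y298.GA.EnB
import Pool.Agent.Y298.CA.Mn

/-!
# Slow families: the main inequality
-/

set_option autoImplicit false

open Set Filter Metric MeasureTheory

namespace Pool.Agent.Y298.GA

open Pool.Agent.TH279.MD Pool.Agent.Y298.SH Pool.Agent.Y298.SH.CD
open Pool.Agent.Y298.SH.CE (MG RR)
open Pool.Agent.W746.LD (Univ KC exists_KC)
open Pool.Agent.Y298.CA (VV BRc S_COV S_ME S_ONE S_BR S_NH S_PS S_RA S_RB one_le_of VV_iter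
  vol_cb' vol_b' isClosed_VV dens const_le_int inv_min_sq int_ind bet measurable_bet bet_int
  bet_low1 bet_low2 min_add_le dens_alg solve FT ft_exists)

variable {d : ℕ}

/-- the constants attached to the class -/
structure K0 (d : ℕ) (C₁ lam θ B Ca e Cs W ε K₁ R₀ Y : ℝ) : Prop where
  hd : 2 ≤ d
  hC1 : 1 ≤ C₁
  hlam : 1 < lam
  hθ : 1 < θ
  pc : PC d C₁ lam θ B Ca
  ft : FT d C₁ lam θ B e Cs W
  ε0 : 0 < ε
  ε1 : ε ≤ 1
  bi : ∀ c₁ : ℂ, CEp d C₁ lam c₁ → BIc d θ B ε c₁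
  K1 : 1 ≤ K₁
  R0 : 0 < R₀
  Y0 : 0 < Y
  br1 : ∀ c₁ : ℂ, CEp d C₁ lam c₁ → ∀ δ : ℝ, 0 < δ → δ ≤ R₀ → ∀ (n : ℕ) (y : ℂ),
    y ∈ VV d δ c₁ n → ‖(f d c₁)^[n] y‖ ≤ 3 * δ → BRc K₁ (δ / 2) d c₁ n y
  br2 : ∀ c₁ : ℂ, CEp d C₁ lam c₁ → ∀ δ : ℝ, 0 < δ → ∀ (n : ℕ) (y : ℂ),
    y ∈ VV d δ c₁ n → BRc K₁ (δ ^ d / (2 * Y)) d c₁ n y

theorem k0_exists (hBR : S_BR) (hNH : S_NH) (hPA : S_PA) (hBI : S_BI) (hd : 2 ≤ d)
    (C₁ lam θ : ℝ) (hC₁ : 1 ≤ C₁) (hlam : 1 < lam) (hθ : 1 < θ)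
    (hθ2 : θ ≤ 2) (hθd : θ ^ (3 * d) ≤ lam) :
    ∃ B Ca e Cs W ε K₁ R₀ Y : ℝ, K0 d C₁ lam θ B Ca e Cs W ε K₁ R₀ Y := by
  obtain ⟨B, Ca, hPC⟩ := hPA d C₁ lam θ hd hC₁ hlam hθ
  have hB1 : 1 ≤ B := hPC.Ca1.trans hPC.CaB
  obtain ⟨e, Cs, W, hFT⟩ := ft_exists hd C₁ lam θ B hC₁ hlam hθ hθ2 hθd hB1
  obtain ⟨ε, hε0, hε1, hbi⟩ := hBI d C₁ lam θ B Ca hd hC₁ hlam hθ hPC
  obtain ⟨C0, c0, hKC⟩ := exists_KC
  obtain ⟨K₁, hK₁, hbr⟩ := hBR C0 c0 hKC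
  obtain ⟨θ', τ, A, R₀, Y, hMG, hR₀, hY, hnh⟩ := hNH d C₁ lam C0 c0 hd hC₁ hlam hKC
  refine ⟨B, Ca, e, Cs, W, ε, K₁, R₀, Y, ⟨hd, hC₁, hlam, hθ, hPC, hFT, hε0, hε1, hbi, hK₁, hR₀,
    hY, ?_, ?_⟩⟩
  · intro c₁ h δ hδ hδR n y hy hyn
    refine hbr θ' τ A hMG d c₁ y (δ / 2) δ n hd (by positivity) hδ h.Pd_pos ?_ ?_
    · intro j hj
      rw [mul_div_cancel₀ δ (by norm_num : (2 : ℝ) ≠ 0)] at hj ⊢
      exact (hnh c₁ h).1 δ hδ hδR _ hyn j hj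
    · intro j hj
      have := hy j hj
      linarith
  · intro c₁ h δ hδ n y hy
    refine hbr θ' τ A hMG d c₁ y _ δ n hd (by positivity) hδ h.Pd_pos ?_ ?_
    · intro j _
      have h1 := (hnh c₁ h).2 j
      calc A * θ' ^ j / Pd d c₁ j * (2 * (δ ^ d / (2 * Y)))
          ≤ Y * (2 * (δ ^ d / (2 * Y))) := by gcongr
        _ = δ ^ d := by field_simp
    · intro j hj
      have := hy j hj
      linarith

/-- the jobs used in the main inequality -/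
structure JB : Prop where
  cov : S_COV
  tr : S_TR
  me : S_ME
  one : S_ONE
  pe : S_PE
  ra : S_RA
  rb : S_RB
  ps : S_PS

/-- **The main inequality.** -/
theorem main_local (J : JB) {C₁ lam θ B Ca e Cs W ε K₁ R₀ Y : ℝ}
    (K : K0 d C₁ lam θ B Ca e Cs W ε K₁ R₀ Y) {c₀ : ℂ} (h : CEp d C₁ lam c₀) {K₂ : ℝ}
    (hK₂ : 0 < K₂) {m : ℝ} (hm : m = (((d - 1 : ℕ) : ℝ))⁻¹) :
    ∃ C e₀ s₀ : ℝ, 0 < C ∧ 0 < e₀ ∧ 0 < s₀ ∧ s₀ ≤ 1 ∧ ∀ c₁ : ℂ, CEp d C₁ lam c₁ → ‖c₁ - c₀‖ ≤ e₀ →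
      ∀ s : ℝ, 0 < s → s ≤ s₀ → ∀ k : ℕ, (∀ j < k, B * θ ^ j * s * Pd d c₁ j ≤ ‖zz d c₁ j‖) →
        s * Pd d c₁ k ≤ 4 * d → 1 ≤ W * s ^ e * Pd d c₁ k →
        sS d c₁ (s / 2) (K₂ / Pd d c₁ k) ≤ C * (1 / Pd d c₁ k) ^ (2 * m) := by
  have hd := K.hd
  have hdR : (2 : ℝ) ≤ d := by exact_mod_cast hd
  have hε0 := K.ε0
  have hK1 := K.K1
  have hY0 := K.Y0
  have hR0 := K.R0
  have hCs0 := K.ft.Cs0
  have he0 := K.ft.e0
  have he1 := K.ft.e1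
  have hW1 := K.ft.W1
  set a : ℝ := d * e with ha
  have ha0 : 0 < a := by positivity
  have he1' : e ≤ 1 := by nlinarith
  have hm0 : 0 < m := by
    rw [hm]
    have : (0 : ℝ) < ((d - 1 : ℕ) : ℝ) := by exact_mod_cast (by omega : 0 < d - 1)
    positivity
  obtain ⟨CA, hCA0, hCA⟩ := J.ra a ha0 (by linarith)
  obtain ⟨CB, hCB0, hCB⟩ := J.rb d hd
  obtain ⟨ρ₀, Γ, hρ₀, hΓ1, hPS⟩ := J.ps d C₁ lam c₀ h
  have hΓ0 : 0 < Γ := by linarith
  have hsG : 1 ≤ √Γ := Real.one_le_sqrt.mpr hΓ1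
  set η : ℝ := ε / (10 * K₁ * √Γ) with hη
  have hη0 : 0 < η := by positivity
  -- the choice of `δ`
  set m₁ : ℝ := min (1 / (2 ^ 22 * Γ * Cs)) (1 / (2 ^ 18 * Γ * (Cs / η ^ 2) * CA)) with hm₁
  have hm₁0 : 0 < m₁ := lt_min (by positivity) (by positivity)
  set δ : ℝ := min (min ρ₀ R₀) (min (1 / 5) (m₁ ^ a⁻¹ / 4)) with hδ
  have hδ0 : 0 < δ := by
    have : 0 < m₁ ^ a⁻¹ := Real.rpow_pos_of_pos hm₁0 _
    exact lt_min (lt_min hρ₀ hR0) (lt_min (by norm_num) (by positivity))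
  have hδρ : δ ≤ ρ₀ := (min_le_left _ _).trans (min_le_left _ _)
  have hδR : δ ≤ R₀ := (min_le_left _ _).trans (min_le_right _ _)
  have hδ5 : δ ≤ 1 / 5 := (min_le_right _ _).trans (min_le_left _ _)
  have hδm : δ ≤ m₁ ^ a⁻¹ / 4 := (min_le_right _ _).trans (min_le_right _ _)
  have hδa : (4 * δ) ^ a ≤ m₁ := by
    calc (4 * δ) ^ a ≤ (m₁ ^ a⁻¹) ^ a := Real.rpow_le_rpow (by positivity) (by linarith) ha0.le
      _ = m₁ := by rw [← Real.rpow_mul hm₁0.le, inv_mul_cancel₀ ha0.ne', Real.rpow_one]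
  have hδa' : (5 / 2 * δ) ^ a ≤ m₁ :=
    (Real.rpow_le_rpow (by positivity) (by linarith) ha0.le).trans hδa
  have hδ1 : 2 ^ 22 * Γ * Cs * (5 / 2 * δ) ^ a ≤ 1 := by
    calc 2 ^ 22 * Γ * Cs * (5 / 2 * δ) ^ a ≤ 2 ^ 22 * Γ * Cs * (1 / (2 ^ 22 * Γ * Cs)) := by
          gcongr
          exact hδa'.trans (min_le_left _ _)
      _ = 1 := by field_simp
  have hδ2 : 2 ^ 18 * Γ * (Cs / η ^ 2) * CA * (4 * δ) ^ a ≤ 1 := by
    calc 2 ^ 18 * Γ * (Cs / η ^ 2) * CA * (4 * δ) ^ a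
        ≤ 2 ^ 18 * Γ * (Cs / η ^ 2) * CA * (1 / (2 ^ 18 * Γ * (Cs / η ^ 2) * CA)) := by
          gcongr
          exact hδa.trans (min_le_right _ _)
      _ = 1 := by field_simp
  obtain ⟨A', hA'1, hPS2⟩ := hPS δ hδ0 hδρ
  have hsA : 1 ≤ √A' := Real.one_le_sqrt.mpr hA'1
  -- the radius of the survivors
  set Rd : ℝ := δ ^ d / (2 * Y) with hRd
  have hRd0 : 0 < Rd := by positivity
  set Ra : ℝ := min (Rd / (2 * K₁)) (min (5 * δ / (K₁ * √A')) (1 / K₁)) with hRa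
  have hRa0 : 0 < Ra := lt_min (by positivity) (lt_min (by positivity) (by positivity))
  have hRa1 : 2 * K₁ * Ra ≤ Rd := by
    have h1 : Ra ≤ Rd / (2 * K₁) := min_le_left _ _
    rw [le_div_iff₀ (by positivity)] at h1
    linarith
  have hRa2 : K₁ * √A' * Ra ≤ 5 * δ := by
    have h1 : Ra ≤ 5 * δ / (K₁ * √A') := (min_le_right _ _).trans (min_le_left _ _)
    rw [le_div_iff₀ (by positivity)] at h1
    linarith
  have hRa3 : K₁ * Ra ≤ 1 := by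
    have h1 : Ra ≤ 1 / K₁ := (min_le_right _ _).trans (min_le_right _ _)
    rw [le_div_iff₀ (by positivity)] at h1
    linarith
  set ε' : ℝ := min (1 / 16) (1 / (2 ^ 22 * (1 + 1 / Ra ^ 2))) with hε'
  have hε'0 : 0 < ε' := lt_min (by norm_num) (by positivity)
  have hε'1 : ε' ≤ 1 / 16 := min_le_left _ _
  have hε'2 : 2 ^ 22 * ε' * (1 + 1 / Ra ^ 2) ≤ 1 := by
    calc 2 ^ 22 * ε' * (1 + 1 / Ra ^ 2) ≤ 2 ^ 22 * (1 / (2 ^ 22 * (1 + 1 / Ra ^ 2))) *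
          (1 + 1 / Ra ^ 2) := by
          gcongr
          exact min_le_right _ _
      _ = 1 := by field_simp
  obtain ⟨N, hN1, e₀, he₀, hPS3⟩ := hPS2 ε' hε'0
  obtain ⟨CN, hCN0, hCN⟩ := J.pe d N hd
  -- the constant `Λ`
  set L : ℝ := 2 ^ 11 * √Γ + 2 * √Γ * K₂ / ε + 8 * d * CN + 2 * d / ε with hL
  have hL1 : 2 ^ 11 * √Γ ≤ L := by
    have h1 : 0 ≤ 2 * √Γ * K₂ / ε := by positivity
    have h2 : 0 ≤ 8 * d * CN := by positivity
    have h3 : 0 ≤ 2 * d / ε := by positivity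
    linarith
  have hL2 : 2 * √Γ * K₂ ≤ ε * L := by
    have h1 : ε * (2 * √Γ * K₂ / ε) = 2 * √Γ * K₂ := by field_simp
    have h2 : 0 ≤ ε * (2 ^ 11 * √Γ) := by positivity
    have h3 : 0 ≤ ε * (8 * d * CN) := by positivity
    have h4 : 0 ≤ ε * (2 * d / ε) := by positivity
    rw [hL]
    linarith
  have hL3 : 8 * d * CN ≤ L := by
    have h1 : 0 ≤ 2 * √Γ * K₂ / ε := by positivity
    have h2 : 0 ≤ 2 ^ 11 * √Γ := by positivity
    have h3 : 0 ≤ 2 * d / ε := by positivity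
    linarith
  have hL6 : 2 * d ≤ ε * L := by
    have h1 : ε * (2 * d / ε) = 2 * d := by field_simp
    have h2 : 0 ≤ ε * (2 ^ 11 * √Γ) := by positivity
    have h3 : 0 ≤ ε * (8 * d * CN) := by positivity
    have h4 : 0 ≤ ε * (2 * √Γ * K₂ / ε) := by positivity
    rw [hL]
    linarith
  have hL0 : 0 < L := by
    have : 0 < 2 ^ 11 * √Γ := by positivity
    linarith
  have hL4 : 4 * √Γ ≤ L := by linarith
  have hL5 : 2 ^ 22 * Γ * (1 / L ^ 2) ≤ 1 := by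
    rw [mul_one_div, div_le_one (by positivity)]
    calc 2 ^ 22 * Γ = (2 ^ 11 * √Γ) ^ 2 := by
          rw [mul_pow, Real.sq_sqrt hΓ0.le]
          norm_num
      _ ≤ L ^ 2 := by gcongr
  -- the smallness of `s`
  set FF : ℝ := CN * (1 + K₂ * W) * 100 * (√A' + √Γ) + 8 * CN / δ + 2 * CN + 1 with hFF
  have hFF0 : 0 < FF := by positivity
  have hFF1 : 1 ≤ FF := by
    have : 0 ≤ CN * (1 + K₂ * W) * 100 * (√A' + √Γ) := by positivity
    have : 0 ≤ 8 * CN / δ := by positivity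
    linarith
  set s₀ : ℝ := (1 / FF) ^ e⁻¹ with hs₀
  have hs₀0 : 0 < s₀ := Real.rpow_pos_of_pos (by positivity) _
  have hs₀1 : s₀ ≤ 1 := by
    apply Real.rpow_le_one (by positivity) _ (by positivity)
    rw [div_le_one hFF0]
    exact hFF1
  set G : ℝ := 4 ^ d * 4096 / η ^ 2 with hG
  have hG0 : 0 < G := by positivity
  set M₁ : ℝ := 2 * (16 * Γ * L ^ (2 * m)) with hM₁
  set M₂ : ℝ := 2 * (25 * Γ * CB * G ^ ((d : ℝ)⁻¹)) with hM₂
  have hM₁0 : 0 < M₁ := by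
    have := Real.rpow_pos_of_pos hL0 (2 * m)
    positivity
  have hM₂0 : 0 < M₂ := by
    have := Real.rpow_pos_of_pos hG0 ((d : ℝ)⁻¹)
    positivity
  refine ⟨2 * M₁ + ((2 * M₂) ^ d) ^ m, e₀, s₀, ?_, he₀, hs₀0, hs₀1, ?_⟩
  · have : 0 ≤ ((2 * M₂) ^ d) ^ m := Real.rpow_nonneg (by positivity) _
    positivity
  intro c₁ hc₁ hcc s hs0 hss k hk hsP hWP
  have hs1 : s ≤ 1 := hss.trans hs₀1
  have hP0 := hc₁.Pd_pos k
  set P := Pd d c₁ k with hPdef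
  obtain ⟨hps1, hps2, hps3⟩ := hPS3 c₁ hcc
  have hc2 : ‖c₁‖ ≤ 2 := hc₁.bd 0
  have X : Ctx d θ B ε K₁ δ Γ A' CN Rd N c₁ :=
    { hd := hd
      hc := hc2
      δ0 := hδ0
      δ5 := hδ5
      Γ1 := hΓ1
      A1 := hA'1
      CN0 := hCN0
      Rd0 := hRd0
      K1 := hK1
      ε0 := hε0
      ε1 := K.ε1
      bi := K.bi c₁ hc₁
      br1 := fun n y hy hyn => K.br1 c₁ hc₁ δ hδ0 hδR n y hy hyn
      br2 := fun n y hy => K.br2 c₁ hc₁ δ hδ0 n y hy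
      h1 := hps1
      h2 := hps3
      pe := fun r κ u T γ hr0 hr1 hCv n hn w hw hw4 hj =>
        hCN c₁ r κ u T γ hc2 hr0 hr1 hCv n hn w hw hw4 hj
      one := fun n y hy => J.one d δ c₁ n y hd hδ0 hy }
  set r : ℝ := s / 2 with hr
  set κ : ℝ := K₂ / P with hκ
  have hr0 : 0 < r := by positivity
  have hr1 : r ≤ 1 := by linarith
  have hκ0 : 0 < κ := by positivity
  have hse0 : 0 < s ^ e := Real.rpow_pos_of_pos hs0 _
  have hse : FF * s ^ e ≤ 1 := by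
    calc FF * s ^ e ≤ FF * s₀ ^ e := by gcongr
      _ = 1 := by
          rw [hs₀, ← Real.rpow_mul (by positivity), inv_mul_cancel₀ he0.ne', Real.rpow_one]
          field_simp
  have hsse : s ≤ s ^ e := by
    calc s = s ^ (1 : ℝ) := (Real.rpow_one s).symm
      _ ≤ s ^ e := Real.rpow_le_rpow_of_exponent_ge hs0 hs1 he1'
  have hκs : κ ≤ K₂ * W * s ^ e := by
    rw [hκ, div_le_iff₀ hP0]
    calc K₂ = K₂ * 1 := (mul_one _).symm
      _ ≤ K₂ * (W * s ^ e * P) := by gcongr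
      _ = _ := by ring
  have hrκ : r + κ ≤ (1 + K₂ * W) * s ^ e := by
    have : r ≤ s ^ e := by linarith
    linarith
  have hterm1 : CN * (r + κ) * 100 * (√A' + √Γ) ≤ 1 := by
    calc CN * (r + κ) * 100 * (√A' + √Γ)
        ≤ CN * ((1 + K₂ * W) * s ^ e) * 100 * (√A' + √Γ) := by gcongr
      _ = (CN * (1 + K₂ * W) * 100 * (√A' + √Γ)) * s ^ e := by ring
      _ ≤ FF * s ^ e := by
          gcongr
          rw [hFF]
          have : 0 ≤ 8 * CN / δ := by positivity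
          linarith
      _ ≤ 1 := hse
  have hrκA : CN * (r + κ) * √A' * 100 ≤ 1 := by
    refine le_trans ?_ hterm1
    have : 0 ≤ CN * (r + κ) * 100 * √Γ := by positivity
    linarith
  have hrκG : CN * (r + κ) * √Γ * 100 ≤ 1 := by
    refine le_trans ?_ hterm1
    have : 0 ≤ CN * (r + κ) * 100 * √A' := by positivity
    linarith
  have hCr1 : 8 * CN / δ * s ≤ 1 := by
    calc 8 * CN / δ * s ≤ FF * s ^ e := by
          gcongr
          rw [hFF]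
          have : 0 ≤ CN * (1 + K₂ * W) * 100 * (√A' + √Γ) := by positivity
          linarith
      _ ≤ 1 := hse
  have hCr2 : 2 * CN * s ≤ 1 := by
    calc 2 * CN * s ≤ FF * s ^ e := by
          gcongr
          rw [hFF]
          have : 0 ≤ CN * (1 + K₂ * W) * 100 * (√A' + √Γ) := by positivity
          have : 0 ≤ 8 * CN / δ := by positivity
          linarith
      _ ≤ 1 := hse
  have hr2 : CN * r ≤ δ / 8 := by
    rw [div_mul_eq_mul_div, div_le_one hδ0] at hCr1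
    rw [hr]
    nlinarith
  have hr3 : CN * r ≤ 1 := by
    rw [hr]
    nlinarith
  -- the threshold
  set X₀ : ℝ := (L / P) ^ m with hX₀
  have hX₀0 : 0 < X₀ := Real.rpow_pos_of_pos (by positivity) _
  have hX₀p : X₀ ^ (d - 1) = L / P := by
    rw [hX₀, hm]
    exact Real.rpow_inv_natCast_pow (by positivity) (by omega)
  have hr4 : CN * r ≤ X₀ / 4 := by
    have h1 : (4 * (CN * r)) ^ (d - 1) ≤ X₀ ^ (d - 1) := by
      rw [hX₀p, le_div_iff₀ hP0]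
      have h2 : (4 * (CN * r)) ^ (d - 1) ≤ 4 * (CN * r) := by
        calc (4 * (CN * r)) ^ (d - 1) ≤ (4 * (CN * r)) ^ 1 := by
              apply pow_le_pow_of_le_one (by positivity) _ (by omega)
              rw [hr]
              linarith
          _ = _ := pow_one _
      calc (4 * (CN * r)) ^ (d - 1) * P ≤ 4 * (CN * r) * P := by gcongr
        _ = 2 * CN * (s * P) := by rw [hr]; ring
        _ ≤ 2 * CN * (4 * d) := by gcongr
        _ = 8 * d * CN := by ring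
        _ ≤ L := hL3
    have h2 : 4 * (CN * r) ≤ X₀ := le_of_pow_le_pow_left₀ (by omega) hX₀0.le h1
    linarith
  have hκX : 2 * √Γ * κ ≤ ε * X₀ ^ (d - 1) := by
    rw [hX₀p, hκ]
    calc 2 * √Γ * (K₂ / P) = (2 * √Γ * K₂) / P := by ring
      _ ≤ (ε * L) / P := by gcongr
      _ = _ := by ring
  have hrX : r ≤ ε * X₀ ^ (d - 1) := by
    rw [hX₀p, hr, ← mul_div_assoc, le_div_iff₀ hP0]
    linarith
  -- the passages
  have hsk : ∀ x : ℝ, X₀ ≤ x → x ≤ 5 / 2 * δ → ∃ (s' : ℝ) (k' : ℕ), 0 < s' ∧ s' ≤ 1 ∧ r ≤ s' ∧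
      x ^ d < s' ∧
      (∀ j < k', B * θ ^ j * s' * Pd d c₁ j ≤ ‖zz d c₁ j‖) ∧ 4 * √Γ ≤ x ^ (d - 1) * Pd d c₁ k' ∧
      (1 ≤ Cs * x ^ a * (x ^ (d - 1) * Pd d c₁ k') ^ 2 ∨
        (Pd d c₁ k' = P ∧ L ≤ x ^ (d - 1) * P)) := by
    intro x hx1 hx2
    have hx0 : 0 < x := hX₀0.trans_le hx1
    rcases lt_or_ge (x ^ d) r with h1 | h1
    · refine ⟨s, k, hs0, hs1, by linarith, by linarith, hk, ?_, Or.inr ⟨rfl, ?_⟩⟩
      · refine hL4.trans ?_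
        calc L = X₀ ^ (d - 1) * P := by rw [hX₀p]; field_simp
          _ ≤ _ := by gcongr
      · calc L = X₀ ^ (d - 1) * P := by rw [hX₀p]; field_simp
          _ ≤ _ := by gcongr
    · have h2 : 2 * x ^ d ≤ 1 := by
        have h3 : x ≤ 1 / 2 := by linarith
        calc 2 * x ^ d ≤ 2 * (1 / 2) ^ d := by gcongr
          _ ≤ 2 * (1 / 2) ^ 1 := by
              gcongr 2 * ?_
              exact pow_le_pow_of_le_one (by norm_num) (by norm_num) (by omega)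
          _ = 1 := by norm_num
      obtain ⟨k', hk'1, hk'2⟩ := K.ft.shallow c₁ hc₁ x hx0 h2
      have hxd : 0 < x ^ d := by positivity
      refine ⟨2 * x ^ d, k', by positivity, h2, by linarith, by linarith, hk'1, ?_, Or.inl hk'2⟩
      set y := x ^ (d - 1) * Pd d c₁ k' with hy
      have hP' := hc₁.Pd_pos k'
      have hy0 : 0 < y := by positivity
      have h3 : 16 * Γ ≤ y ^ 2 := by
        have h4 : Cs * x ^ a ≤ 1 / (2 ^ 22 * Γ) := by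
          rw [le_div_iff₀ (by positivity)]
          calc Cs * x ^ a * (2 ^ 22 * Γ) ≤ Cs * (5 / 2 * δ) ^ a * (2 ^ 22 * Γ) := by gcongr
            _ = 2 ^ 22 * Γ * Cs * (5 / 2 * δ) ^ a := by ring
            _ ≤ 1 := hδ1
        have h5 : 1 ≤ 1 / (2 ^ 22 * Γ) * y ^ 2 := hk'2.trans (by gcongr)
        rw [div_mul_eq_mul_div, le_div_iff₀ (by positivity)] at h5
        linarith
      have h4 : (4 * √Γ) ^ 2 ≤ y ^ 2 := by
        rw [mul_pow, Real.sq_sqrt hΓ0.le]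
        linarith
      exact le_of_pow_le_pow_left₀ (by norm_num) hy0.le h4
  -- the radius for the second kind of radial integrals
  set S := sS d c₁ r κ with hSdef
  have hS0 : 0 ≤ S := sS_nonneg _ _ _ _
  set Z : ℝ := G * (S * (1 / P) ^ 2) with hZ
  have hZ0 : 0 ≤ Z := by positivity
  set Xr : ℝ := Z ^ (((2 * d : ℕ) : ℝ)⁻¹) with hXrdef
  have hXr0 : 0 ≤ Xr := Real.rpow_nonneg hZ0 _
  have hXrp : Xr ^ (2 * d) = Z := Real.rpow_inv_natCast_pow hZ0 (by omega)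
  have hXr2 : Xr ^ 2 = G ^ ((d : ℝ)⁻¹) * (S * (1 / P) ^ 2) ^ ((d : ℝ)⁻¹) := by
    rw [← Real.mul_rpow hG0.le (by positivity), ← hZ, hXrdef, ← Real.rpow_natCast,
      ← Real.rpow_mul hZ0]
    congr 1
    push_cast
    field_simp
  have hXr : 4 ^ d * 4096 * sS d c₁ r κ ≤ Xr ^ (2 * d) * (η ^ 2 * P ^ 2) := by
    rw [hXrp, hZ, hG, ← hSdef]
    apply le_of_eq
    field_simp
  -- the bound for one curve
  have hone : ∀ (u : ℂ) (T : ℝ) (γ : ℂ → ℂ → ℂ), 0 < T → T ≤ 1 → Cv c₁ r κ u T γ →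
      volume (BB d γ ∩ ball u (T / 2)) ≤ ENNReal.ofReal (1 / 2 * S + (16 * Γ * X₀ ^ 2 +
        25 * Γ * CB * Xr ^ 2)) := by
    intro u T γ hT hT1 hCv
    have hA := X.volA J.cov J.tr J.me hr0.le hr3 hκ0.le hT hT1 hCv hr2 hr3 hrκA hε'0 hε'1 hps2
      hRa0 hRa1 hRa2 hRa3
    have hV := X.volV J.me hr0.le hr3 hT hT1 hCv hr2 hX₀0 (by linarith)
    have hB := X.volB J.cov J.tr J.me hr0.le hr3 hκ0.le hT hT1 hCv hr2 hrκG hX₀0 hr4 hκX hrX ha0 he1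
      hCs0 hL0 hP0 hsk hη hXr0 hXr hCA hCB hCA0.le hCB0.le
    rw [← hSdef] at hA hB
    have hsub : BB d γ ∩ ball u (T / 2) ⊆ EA d δ N γ u T ∪
      ({w | ∃ n < N, EN d δ γ u T n w ∧ ‖GG d γ n w‖ < X₀} ∪
        {w | ∃ n < N, EN d δ γ u T n w ∧ X₀ ≤ ‖GG d γ n w‖}) := by
      intro w hw
      rcases split_E d δ N γ u T (X₀ ^ (d - 1)) hw with h1 | h1 | h1
      · exact Or.inl h1
      · refine Or.inr (Or.inl ?_)
        obtain ⟨n, hn, h2, h3⟩ := h1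
        exact ⟨n, hn, h2, lt_of_pow_lt_pow_left₀ _ hX₀0.le h3⟩
      · refine Or.inr (Or.inr ?_)
        obtain ⟨n, hn, h2, h3⟩ := h1
        exact ⟨n, hn, h2, le_of_pow_le_pow_left₀ (by omega) (norm_nonneg _) h3⟩
    refine (measure_mono hsub).trans ((measure_union_le _ _).trans
      ((add_le_add hA ((measure_union_le _ _).trans (add_le_add hV hB))).trans ?_))
    rw [← ENNReal.ofReal_add (by positivity) (by positivity),
      ← ENNReal.ofReal_add (by positivity) (by positivity)]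
    apply ENNReal.ofReal_le_ofReal
    have t1 : 2 ^ 18 * ε' * (1 + 1 / Ra ^ 2) * S ≤ 1 / 16 * S := by
      gcongr
      linarith
    have t2 : 2 ^ 18 * Γ * (Cs * (5 / 2 * δ) ^ a + 1 / L ^ 2) * S ≤ 1 / 8 * S := by
      gcongr
      linarith
    have t3 : Γ * (16384 * S * Cs / η ^ 2 * (CA * (4 * δ) ^ a)) ≤ 1 / 16 * S := by
      calc Γ * (16384 * S * Cs / η ^ 2 * (CA * (4 * δ) ^ a))
          = (1 / 16 * S) * (2 ^ 18 * Γ * (Cs / η ^ 2) * CA * (4 * δ) ^ a) := by ring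
        _ ≤ (1 / 16 * S) * 1 := by gcongr
        _ = _ := by ring
    have t4 : Γ * (16384 * S * Cs / η ^ 2 * (CA * (4 * δ) ^ a) + 25 * (CB * Xr ^ 2)) =
        Γ * (16384 * S * Cs / η ^ 2 * (CA * (4 * δ) ^ a)) + 25 * Γ * CB * Xr ^ 2 := by ring
    rw [t4]
    linarith
  have hsup : SS d c₁ r κ ≤ ENNReal.ofReal (1 / 2 * S + (16 * Γ * X₀ ^ 2 +
        25 * Γ * CB * Xr ^ 2)) := by
    unfold SS
    refine iSup_le fun u => iSup_le fun T => iSup_le fun γ => iSup_le fun hh => ?_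
    exact hone u T γ hh.1 hh.2.1 hh.2.2
  have hfin : S ≤ 1 / 2 * S + (16 * Γ * X₀ ^ 2 + 25 * Γ * CB * Xr ^ 2) := by
    have h1 := ENNReal.toReal_mono ENNReal.ofReal_ne_top hsup
    rwa [ENNReal.toReal_ofReal (by positivity)] at h1
  have hX2 : X₀ ^ 2 = L ^ (2 * m) * (1 / P) ^ (2 * m) := by
    rw [← Real.mul_rpow hL0.le (by positivity), mul_one_div, hX₀, ← Real.rpow_natCast,
      ← Real.rpow_mul (by positivity)]
    congr 1
    push_cast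
    ring
  refine solve hd hm hS0 (by positivity) hM₁0.le hM₂0.le ?_
  rw [hX2, hXr2] at hfin
  rw [hM₁, hM₂]
  linarith

end Pool.Agent.Y298.GA
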