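import Mathlib
import Pool.Agent.Y298.GA.Mn
import Pool.Agent.Y298.CA.Par

/-!
# From the critical value to slow families
-/

set_option autoImplicit false

open Set Filter Metric MeasureTheory

namespace Pool.Agent.Y298.GA

open Pool.Agent.TH279.MD Pool.Agent.Y298.SH Pool.Agent.Y298.SH.CD
open Pool.Agent.Y298.CA (VV BRc S_COV S_ME S_ONE S_BR S_NH S_PS S_RA S_RB FT)

variable {d : ℕ} {C₁ lam C₂ β : ℝ} {c₀ : ℂ}

/-- distortion by the Cauchy estimates, on a ball -/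
theorem cauchy2 {F : ℂ → ℂ} {y w : ℂ} {R ρ : ℝ} (hF : DifferentiableOn ℂ F (ball y ρ)) (hR : 0 < R)
    (hρ : 0 < ρ) (hb : ∀ v ∈ ball y ρ, ‖F v - w‖ ≤ R) {y' : ℂ} (hy' : ‖y' - y‖ ≤ ρ / 4) :
    ‖deriv F y' - deriv F y‖ ≤ 16 * R / ρ ^ 2 * ‖y' - y‖ := by
  have hsub : ∀ v : ℂ, ‖v - y‖ ≤ ρ / 2 → closedBall v (ρ / 4) ⊆ ball y ρ := by
    intro v hv x hx
    rw [mem_closedBall, dist_eq_norm] at hx
    rw [mem_ball, dist_eq_norm]
    calc ‖x - y‖ = ‖(x - v) + (v - y)‖ := by congr 1; ring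
      _ ≤ ‖x - v‖ + ‖v - y‖ := norm_add_le _ _
      _ < ρ := by linarith
  have h1 : ∀ v, ‖v - y‖ ≤ ρ / 2 → ‖deriv F v‖ ≤ 4 * R / ρ := by
    intro v hv
    have hd : DiffContOnCl ℂ (fun x => F x - w) (ball v (ρ / 4)) :=
      ((hF.mono (closure_ball_subset_closedBall.trans (hsub v hv))).sub_const w).diffContOnCl
    have h2 := Complex.norm_deriv_le_of_forall_mem_sphere_norm_le (c := v) (R := ρ / 4) (C := R)
      (f := fun x => F x - w) (by positivity) hd (fun x hx => by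
        apply hb
        exact hsub v hv (sphere_subset_closedBall hx))
    rw [deriv_sub_const] at h2
    calc ‖deriv F v‖ ≤ R / (ρ / 4) := h2
      _ = _ := by field_simp
  have hF' : DifferentiableOn ℂ (deriv F) (ball y ρ) := hF.deriv isOpen_ball
  have h3 : ∀ v, ‖v - y‖ ≤ ρ / 4 → ‖deriv (deriv F) v‖ ≤ 16 * R / ρ ^ 2 := by
    intro v hv
    have hd : DiffContOnCl ℂ (deriv F) (ball v (ρ / 4)) :=
      (hF'.mono (closure_ball_subset_closedBall.trans (hsub v (by linarith)))).diffContOnCl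
    have h2 := Complex.norm_deriv_le_of_forall_mem_sphere_norm_le (c := v) (R := ρ / 4)
      (C := 4 * R / ρ) (f := deriv F) (by positivity) hd (fun x hx => by
        apply h1
        rw [mem_sphere, dist_eq_norm] at hx
        calc ‖x - y‖ = ‖(x - v) + (v - y)‖ := by congr 1; ring
          _ ≤ ‖x - v‖ + ‖v - y‖ := norm_add_le _ _
          _ ≤ ρ / 2 := by linarith)
    calc ‖deriv (deriv F) v‖ ≤ 4 * R / ρ / (ρ / 4) := h2
      _ = _ := by field_simp; norm_num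
  refine (convex_closedBall y (ρ / 4)).norm_image_sub_le_of_norm_deriv_le (𝕜 := ℂ)
    (f := deriv F) (fun v hv => ?_) (fun v hv => ?_)
    (mem_closedBall_self (by positivity)) ?_
  · rw [mem_closedBall, dist_eq_norm] at hv
    exact hF'.differentiableAt (isOpen_ball.mem_nhds (by
      rw [mem_ball, dist_eq_norm]
      linarith))
  · rw [mem_closedBall, dist_eq_norm] at hv
    exact h3 v hv
  · rw [mem_closedBall, dist_eq_norm]
    exact hy'

/-- the families `z ^ d + w + a z` -/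
theorem cv_lin {c₁ : ℂ} {a : ℂ → ℂ} {u : ℂ} {T r : ℝ} (ha : DifferentiableOn ℂ a (ball (0 : ℂ) 8))
    (h0 : ∀ w ∈ ball u T, ∀ z ∈ ball (0 : ℂ) 8, ‖w + a z - c₁‖ ≤ r)
    (h1 : ∀ z ∈ ball (0 : ℂ) 8, ‖deriv a z‖ ≤ r) :
    Cv c₁ r 1 u T (fun w z => w + a z) := by
  refine ⟨?_, h0, ?_, ?_⟩
  · refine (differentiable_fst.differentiableOn).add ?_
    exact ha.comp differentiable_snd.differentiableOn fun p hp => hp.2
  · intro w _ z hz
    rw [deriv_const_add]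
    exact h1 z hz
  · intro w _ z _
    rw [deriv_add_const]
    simp

/-- **The start at the critical value.** -/
theorem par_start (htr : S_TR) (hst : S_START) {θ B Ca W : ℝ} (hθ : 1 < θ) (hW : 1 ≤ W)
    (hPC : PC d C₁ lam θ B Ca) (h : CEp d C₁ lam c₀) :
    ∃ ε₁ K₂ Cp e₀ s₀ : ℝ, 0 < ε₁ ∧ 0 < K₂ ∧ 0 < Cp ∧ 0 < e₀ ∧ 0 < s₀ ∧ s₀ ≤ 1 ∧
      ∀ c₁ : ℂ, CEp d C₁ lam c₁ → ‖c₁ - c₀‖ ≤ e₀ → ∀ s : ℝ, 0 < s → s ≤ s₀ → ∀ k : ℕ,
        (∀ j < k, B * θ ^ j * s * Pd d c₁ j ≤ ‖zz d c₁ j‖) → s * Pd d c₁ k ≤ 4 * d →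
        1 ≤ W * NN d ^ k * s → ∀ (a : ℂ → ℂ) (v : ℂ), DifferentiableOn ℂ a (ball (0 : ℂ) 8) →
        (∀ z ∈ ball (0 : ℂ) 8, ‖a z‖ ≤ s / 4) → (∀ z ∈ ball (0 : ℂ) 8, ‖deriv a z‖ ≤ s / 4) →
        ‖v - c₁‖ ≤ s / 8 →
        volume (BB d (fun w z => w + a z) ∩ closedBall v (ε₁ * s)) ≤
          ENNReal.ofReal (Cp * (1 / Pd d c₁ k) ^ 2) * SS d c₁ (s / 2) (K₂ / Pd d c₁ k) := by
  have hd := h.hd
  have hdR : (2 : ℝ) ≤ d := by exact_mod_cast hd
  have hW0 : 0 < W := by linarith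
  obtain ⟨κg, εg, s₁, J, hκg, hεg, hs₁, hs₁1, hgrow⟩ := hst d C₁ lam θ B Ca hd h.C1 h.lam1 hθ hPC
    c₀ h
  have hCa1 := hPC.Ca1
  have hCa0 : 0 < Ca := by linarith
  have hN1 : (1 : ℝ) ≤ NN d := by
    unfold NN
    have h1 : (1 : ℝ) ≤ 2 ^ (d - 1) := one_le_pow₀ (by norm_num)
    have h2 : (1 : ℝ) ≤ (2 * d) ^ d := one_le_pow₀ (by linarith)
    exact one_le_mul_of_one_le_of_one_le h1 h2
  set μ : ℝ := min (1 / 16) (min (κg / (1024 * Ca)) (1 / (32 * d * Ca))) with hμ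
  have hμ0 : 0 < μ := lt_min (by norm_num) (lt_min (by positivity) (by positivity))
  have hμ1 : μ ≤ 1 / 16 := min_le_left _ _
  have hμ2 : 1024 * Ca * μ ≤ κg := by
    have h1 : μ ≤ κg / (1024 * Ca) := (min_le_right _ _).trans (min_le_left _ _)
    rw [le_div_iff₀ (by positivity)] at h1
    linarith
  have hμ3 : 32 * d * Ca * μ ≤ 1 := by
    have h1 : μ ≤ 1 / (32 * d * Ca) := (min_le_right _ _).trans (min_le_right _ _)
    rw [le_div_iff₀ (by positivity)] at h1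
    linarith
  set s₀ : ℝ := min s₁ (1 / (2 * W * NN d ^ J)) with hs₀
  have hNJ1 : (1 : ℝ) ≤ NN d ^ J := one_le_pow₀ hN1
  have hNJ : (0 : ℝ) < NN d ^ J := by linarith
  have hs₀0 : 0 < s₀ := lt_min hs₁ (by positivity)
  have hs₀1 : s₀ ≤ 1 := (min_le_left _ _).trans hs₁1
  refine ⟨μ / 16, 4 / (3 * κg), 2 / κg ^ 2, εg, s₀, by positivity, by positivity, by positivity,
    hεg, hs₀0, hs₀1, ?_⟩
  intro c₁ hc₁ hcc s hs0 hss k hk hsP hWN a v ha ha1 ha2 hv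
  have hs1 : s ≤ 1 := hss.trans hs₀1
  have hJk : J ≤ k := by
    by_contra hcon
    rw [not_le] at hcon
    have h1 : NN d ^ k ≤ NN d ^ J := pow_le_pow_right₀ hN1 hcon.le
    have h4 : s₀ ≤ 1 / (2 * W * NN d ^ J) := min_le_right _ _
    have h2 : W * NN d ^ k * s ≤ W * NN d ^ J * (1 / (2 * W * NN d ^ J)) := by
      gcongr
      exact hss.trans h4
    have h3 : W * NN d ^ J * (1 / (2 * W * NN d ^ J)) = 1 / 2 := by field_simp
    linarith
  have hP0 := hc₁.Pd_pos k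
  set P := Pd d c₁ k with hP
  set H : ℂ → ℂ → ℂ := fun w z => w + a z with hH
  have hgr := hgrow c₁ hc₁ hcc a s k hs0 (hss.trans (min_le_left _ _)) hJk hk ha
    (fun z hz => (ha1 z hz).trans (by linarith)) (fun z hz => (ha2 z hz).trans (by linarith))
  rw [← hP] at hgr
  have hvb : v ∈ ball c₁ (s / 2) := by
    rw [mem_ball, dist_eq_norm]
    linarith
  obtain ⟨-, hg⟩ := hgr v hvb
  have hsubv : ball v (s / 4) ⊆ ball c₁ (s / 2) := by
    intro x hx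
    rw [mem_ball, dist_eq_norm] at hx ⊢
    calc ‖x - c₁‖ = ‖(x - v) + (v - c₁)‖ := by congr 1; ring
      _ ≤ ‖x - v‖ + ‖v - c₁‖ := norm_add_le _ _
      _ < _ := by linarith
  have hΦd : DifferentiableOn ℂ (GG d H k) (ball v (s / 4)) := fun x hx =>
    (hgr x (hsubv hx)).1.differentiableWithinAt
  set D := deriv (GG d H k) v with hD
  have hD0 : 0 < ‖D‖ := lt_of_lt_of_le (by positivity) hg
  have hbd : ∀ x ∈ ball v (s / 4), ‖GG d H k x - zz d c₁ k‖ ≤ Ca * s * P := by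
    intro x hx
    have hx' := hsubv hx
    rw [mem_ball, dist_eq_norm] at hx'
    exact (hPC.pass c₁ hc₁ (fun z => x + a z) s k hs0 hs1 (ha.const_add x) (fun z hz => by
      have h1 := ha1 z hz
      calc ‖x + a z - c₁‖ = ‖(x - c₁) + a z‖ := by congr 1; ring
        _ ≤ ‖x - c₁‖ + ‖a z‖ := norm_add_le _ _
        _ ≤ s := by linarith) (fun z hz => by
      rw [deriv_const_add]
      linarith [ha2 z hz]) hk x (by
      rw [mem_ball, dist_eq_norm]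
      linarith) k le_rfl).1
  have hDle : ‖D‖ ≤ 8 * Ca * P := by
    have h2 := Complex.norm_deriv_le_of_forall_mem_sphere_norm_le (c := v) (R := s / 8)
      (C := Ca * s * P) (f := fun x => GG d H k x - zz d c₁ k) (by positivity)
      (((hΦd.mono (closure_ball_subset_closedBall.trans
        (closedBall_subset_ball (by linarith)))).sub_const _).diffContOnCl) (fun x hx => by
        apply hbd
        rw [mem_sphere] at hx
        rw [mem_ball]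
        linarith)
    rw [deriv_sub_const] at h2
    calc ‖D‖ ≤ Ca * s * P / (s / 8) := h2
      _ = _ := by field_simp
  have hvar : ∀ w' ∈ ball v (μ * s), ‖deriv (GG d H k) w' - D‖ ≤ 1 / 4 * ‖D‖ := by
    intro w' hw'
    rw [mem_ball, dist_eq_norm] at hw'
    have h1 : μ * s ≤ s / 4 / 4 := by nlinarith
    have h2 := cauchy2 hΦd (y := v) (w := zz d c₁ k) (R := Ca * s * P)
      (ρ := s / 4) (by positivity) (by positivity) hbd (y' := w') (by linarith)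
    calc ‖deriv (GG d H k) w' - D‖ ≤ 16 * (Ca * s * P) / (s / 4) ^ 2 * ‖w' - v‖ := h2
      _ ≤ 16 * (Ca * s * P) / (s / 4) ^ 2 * (μ * s) := by gcongr
      _ = (1024 * Ca * μ) / 4 * P := by
          field_simp
          ring
      _ ≤ κg / 4 * P := by gcongr
      _ = 1 / 4 * (κg * P) := by ring
      _ ≤ _ := by gcongr
  have hμs : μ * s ≤ s / 16 := by nlinarith
  have hcv : Cv c₁ (s / 2) 1 v (μ * s) H := by
    refine cv_lin ha (fun w hw z hz => ?_) (fun z hz => (ha2 z hz).trans (by linarith))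
    rw [mem_ball, dist_eq_norm] at hw
    have h1 := ha1 z hz
    calc ‖w + a z - c₁‖ = ‖((w - v) + (v - c₁)) + a z‖ := by congr 1; ring
      _ ≤ ‖(w - v) + (v - c₁)‖ + ‖a z‖ := norm_add_le _ _
      _ ≤ (‖w - v‖ + ‖v - c₁‖) + ‖a z‖ := by
          gcongr
          exact norm_add_le _ _
      _ ≤ s / 2 := by linarith
  have hT := htr d c₁ (s / 2) (4 / (3 * κg) / P) 1 H v (μ * s) k D hd (by positivity)
    hcv (by
      have h1 : 3 / 4 * (4 / (3 * κg) / P * (κg * P)) = 1 := by field_simp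
      rw [← h1]
      gcongr) (norm_pos_iff.mp hD0) (by
      calc ‖D‖ * (μ * s) ≤ (8 * Ca * P) * (μ * s) := by gcongr
        _ = 8 * Ca * μ * (s * P) := by ring
        _ ≤ 8 * Ca * μ * (4 * d) := by gcongr
        _ = 32 * d * Ca * μ := by ring
        _ ≤ 5 := by linarith) (hΦd.mono (ball_subset_ball (by linarith))) hvar
  have e1 : μ * s / 16 = μ / 16 * s := by ring
  rw [e1] at hT
  refine hT.trans ?_
  gcongr ?_ * _
  apply ENNReal.ofReal_le_ofReal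
  calc 2 / ‖D‖ ^ 2 ≤ 2 / (κg * P) ^ 2 := by gcongr
    _ = _ := by field_simp

/-- **The area of the bounded orbits near a Collet-Eckmann parameter, in terms of the
derivative.** -/
theorem par_area (Jb : JB) (hst : S_START) {θ B Ca e Cs W ε K₁ R₀ Y : ℝ} (hθ : 1 < θ)
    (K : K0 d C₁ lam θ B Ca e Cs W ε K₁ R₀ Y) (h : CEp d C₁ lam c₀) :
    ∃ ε₁ C e₀ s₀ : ℝ, 0 < ε₁ ∧ 0 < C ∧ 0 < e₀ ∧ 0 < s₀ ∧ s₀ ≤ 1 ∧
      ∀ c₁ : ℂ, CEp d C₁ lam c₁ → ‖c₁ - c₀‖ ≤ e₀ → ∀ s : ℝ, 0 < s → s ≤ s₀ → ∃ k : ℕ,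
        ‖zz d c₁ k‖ < B * θ ^ k * s * Pd d c₁ k ∧ lam ^ k * s ≤ 2 * C₁ * lam ∧
        ∀ (a : ℂ → ℂ) (v : ℂ), DifferentiableOn ℂ a (ball (0 : ℂ) 8) →
          (∀ z ∈ ball (0 : ℂ) 8, ‖a z‖ ≤ s / 4) → (∀ z ∈ ball (0 : ℂ) 8, ‖deriv a z‖ ≤ s / 4) →
          ‖v - c₁‖ ≤ s / 8 →
          volume (BB d (fun w z => w + a z) ∩ closedBall v (ε₁ * s)) ≤
            ENNReal.ofReal (C * (1 / Pd d c₁ k) ^ (2 * (d : ℝ) / ((d : ℝ) - 1))) := by
  have hd := h.hd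
  have hdR : (2 : ℝ) ≤ d := by exact_mod_cast hd
  have hd1 : 0 < (d : ℝ) - 1 := by linarith
  obtain ⟨ε₁, K₂, Cp, e₁, s₁, hε₁, hK₂, hCp, he₁, hs₁, hs₁1, H1⟩ :=
    par_start Jb.tr hst hθ K.ft.W1 K.pc h
  set m : ℝ := (((d - 1 : ℕ) : ℝ))⁻¹ with hm
  obtain ⟨C, e₂, s₂, hC, he₂, hs₂, hs₂1, H2⟩ := main_local Jb K h hK₂ hm
  refine ⟨ε₁, Cp * C, min e₁ e₂, min s₁ s₂, hε₁, by positivity, lt_min he₁ he₂, lt_min hs₁ hs₂,
    (min_le_left _ _).trans hs₁1, ?_⟩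
  intro c₁ hc₁ hcc s hs0 hss
  have hs1 : s ≤ 1 := hss.trans ((min_le_left _ _).trans hs₁1)
  obtain ⟨k, hk1, hk2, hk3, hk4, hk5, hk6⟩ := K.ft.base c₁ hc₁ s hs0 hs1
  refine ⟨k, hk2, hk3, ?_⟩
  intro a v ha ha1 ha2 hv
  have h1 := H1 c₁ hc₁ (hcc.trans (min_le_left _ _)) s hs0 (hss.trans (min_le_left _ _)) k hk1 hk4
    hk6 a v ha ha1 ha2 hv
  have h2 := H2 c₁ hc₁ (hcc.trans (min_le_right _ _)) s hs0 (hss.trans (min_le_right _ _)) k hk1 hk4
    hk5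
  have hP0 := hc₁.Pd_pos k
  set P := Pd d c₁ k with hP
  have hS0 := sS_nonneg d c₁ (s / 2) (K₂ / P)
  rw [← ofReal_sS, ← ENNReal.ofReal_mul (by positivity)] at h1
  refine h1.trans (ENNReal.ofReal_le_ofReal ?_)
  calc Cp * (1 / P) ^ 2 * sS d c₁ (s / 2) (K₂ / P)
      ≤ Cp * (1 / P) ^ 2 * (C * (1 / P) ^ (2 * m)) := by gcongr
    _ = Cp * C * ((1 / P) ^ (2 : ℝ) * (1 / P) ^ (2 * m)) := by
        rw [Real.rpow_two]
        ring
    _ = _ := by
        rw [← Real.rpow_add (by positivity)]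
        congr 2
        rw [hm, Nat.cast_sub (by omega), Nat.cast_one]
        field_simp
        ring

end Pool.Agent.Y298.GA
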