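import Mathlib
import Pool.Agent.Y298.GA.Par

/-!
# The area of the parameters with bounded critical orbit in families of perturbations
-/

set_option autoImplicit false

open Set Filter Metric MeasureTheory

namespace Pool.Agent.Y298.GA

open Pool.Agent.TH279.MD Pool.Agent.Y298.SH Pool.Agent.Y298.SH.CD
open Pool.Agent.Y298.CA (S_BR S_NH)

variable {d : ℕ} {C₁ lam C₂ β : ℝ} {c₀ : ℂ}

/-- all the jobs -/
structure JC : Prop where
  jb : JB
  br : S_BR
  nh : S_NH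
  pa : S_PA
  bi : S_BI
  st : S_START

/-- the derivative of a small function -/
theorem small_deriv {a : ℂ → ℂ} {r : ℝ} (ha : DifferentiableOn ℂ a (ball (0 : ℂ) 9))
    (h : ∀ z ∈ ball (0 : ℂ) 9, ‖a z‖ ≤ 2 * r) : ∀ z ∈ ball (0 : ℂ) 8, ‖deriv a z‖ ≤ 4 * r := by
  intro z hz
  rw [mem_ball_zero_iff] at hz
  have hsub : closedBall z (1 / 2) ⊆ ball (0 : ℂ) 9 := by
    intro x hx
    rw [mem_closedBall, dist_eq_norm] at hx
    rw [mem_ball_zero_iff]
    calc ‖x‖ = ‖(x - z) + z‖ := by congr 1; ring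
      _ ≤ ‖x - z‖ + ‖z‖ := norm_add_le _ _
      _ < 9 := by linarith
  have h2 := Complex.norm_deriv_le_of_forall_mem_sphere_norm_le (c := z) (R := 1 / 2) (C := 2 * r)
    (f := a) (by norm_num) ((ha.mono (closure_ball_subset_closedBall.trans hsub)).diffContOnCl)
    (fun x hx => h x (hsub (sphere_subset_closedBall hx)))
  linarith

/-- **The sharp bound of the area, locally.** -/
theorem area_local (J : JC) (h : CEp d C₁ lam c₀) (hC₂ : 0 < C₂) (hβ : 0 ≤ β) {t : ℝ}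
    (ht0 : 0 ≤ t) (ht : t * (1 + β) < 1) :
    ∃ C ε : ℝ, 0 < C ∧ 0 < ε ∧ ∀ c₁ : ℂ, CEp d C₁ lam c₁ → Rec d C₂ β c₁ → ‖c₁ - c₀‖ ≤ ε →
      ∀ r : ℝ, 0 < r → r ≤ ε → ∀ (a : ℂ → ℂ) (v : ℂ), DifferentiableOn ℂ a (ball (0 : ℂ) 9) →
        (∀ z ∈ ball (0 : ℂ) 9, ‖a z‖ ≤ 2 * r) → ‖v - c₁‖ ≤ r →
        volume ({w : ℂ | ∀ n : ℕ, ‖(fun z => z ^ d + (w + a z))^[n] w‖ ≤ 5 / 2} ∩ closedBall v r) ≤
          ENNReal.ofReal (C * r ^ (t * (2 * (d : ℝ) / ((d : ℝ) - 1)))) := by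
  have hd := h.hd
  have hdR : (2 : ℝ) ≤ d := by exact_mod_cast hd
  have hd1 : 0 < (d : ℝ) - 1 := by linarith
  have hl := h.lam1
  have hl0 : 0 < lam := by linarith
  have hC1 := h.C1
  have hloglam : 0 < Real.log lam := Real.log_pos hl
  have hlog2 : 0 < Real.log 2 := Real.log_pos (by norm_num)
  -- the exponent `ω`
  set ω : ℝ := min (1 / (3 * d)) (min (Real.log 2 / Real.log lam) (1 - t * (1 + β))) with hω
  have hω0 : 0 < ω := by
    refine lt_min (by positivity) (lt_min (by positivity) (by linarith))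
  have hω1 : ω ≤ 1 / (3 * d) := min_le_left _ _
  have hω2 : ω ≤ Real.log 2 / Real.log lam := (min_le_right _ _).trans (min_le_left _ _)
  have hω3 : ω ≤ 1 - t * (1 + β) := (min_le_right _ _).trans (min_le_right _ _)
  set θ : ℝ := lam ^ ω with hθ
  have hθ1 : 1 < θ := Real.one_lt_rpow hl hω0
  have hθ2 : θ ≤ 2 := by
    rw [hθ, Real.rpow_def_of_pos hl0]
    rw [le_div_iff₀ hloglam] at hω2
    calc Real.exp (Real.log lam * ω) ≤ Real.exp (Real.log 2) := Real.exp_le_exp.mpr (by linarith)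
      _ = 2 := Real.exp_log (by norm_num)
  have hθd : θ ^ (3 * d) ≤ lam := by
    rw [hθ, ← Real.rpow_natCast, ← Real.rpow_mul hl0.le]
    have h1 : ω * ((3 * d : ℕ) : ℝ) ≤ 1 := by
      push_cast
      rw [le_div_iff₀ (by positivity)] at hω1
      exact hω1
    calc lam ^ (ω * ((3 * d : ℕ) : ℝ)) ≤ lam ^ (1 : ℝ) :=
          Real.rpow_le_rpow_of_exponent_le hl.le h1
      _ = lam := Real.rpow_one lam
  obtain ⟨B, Ca, e, Cs, W, ε, K₁, R₀, Y, K⟩ := k0_exists J.br J.nh J.pa J.bi hd C₁ lam θ hC1 hl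
    hθ1 hθ2 hθd
  obtain ⟨ε₂, C, e₀, s₀, hε₂, hC, he₀, hs₀, hs₀1, H⟩ := par_area J.jb J.st hθ1 K h
  set ε₁ : ℝ := min ε₂ (1 / 16) with hε₁d
  have hε₁ : 0 < ε₁ := lt_min hε₂ (by norm_num)
  have hε₁2 : ε₁ ≤ ε₂ := min_le_left _ _
  have hε₁16 : ε₁ ≤ 1 / 16 := min_le_right _ _
  have hB1 : 1 ≤ B := K.pc.Ca1.trans K.pc.CaB
  have hB0 : 0 < B := by linarith
  have hC₁0 : 0 < C₁ := by linarith
  set q : ℝ := 1 / (1 + β) with hq
  have hβ1 : 0 < 1 + β := by linarith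
  have hq0 : 0 < q := by positivity
  set F : ℝ := C₂ * B * (2 * C₁ * lam) ^ ω with hF
  have hF0 : 0 < F := by positivity
  set Fq : ℝ := F ^ q with hFq
  have hFq0 : 0 < Fq := by positivity
  set E : ℝ := 2 * (d : ℝ) / ((d : ℝ) - 1) with hE
  have hE0 : 0 < E := by positivity
  refine ⟨C * (Fq * (1 / ε₁) ^ t) ^ E, min e₀ (ε₁ * s₀), by positivity, by positivity, ?_⟩
  intro c₁ hc₁ hrec hcc r hr0 hrs a v ha har hv
  set s : ℝ := r / ε₁ with hs
  have hs0 : 0 < s := by positivity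
  have hss : s ≤ s₀ := by
    rw [hs, div_le_iff₀ hε₁]
    linarith [min_le_right e₀ (ε₁ * s₀)]
  have hs1 : s ≤ 1 := hss.trans hs₀1
  obtain ⟨k, hk2, hk3, hk4⟩ := H c₁ hc₁ (hcc.trans (min_le_left _ _)) s hs0 hss
  have hrs16 : 16 * r ≤ s := by
    rw [hs, le_div_iff₀ hε₁]
    nlinarith
  have hsub8 : ball (0 : ℂ) 8 ⊆ ball 0 9 := ball_subset_ball (by norm_num)
  have hk5 := hk4 a v (ha.mono hsub8) (fun z hz => by linarith [har z (hsub8 hz)])
    (fun z hz => by linarith [small_deriv ha har z hz]) (by linarith)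
  have hk6 : closedBall v r ⊆ closedBall v (ε₂ * s) := by
    apply closedBall_subset_closedBall
    calc r = ε₁ * s := by rw [hs]; field_simp
      _ ≤ ε₂ * s := by gcongr
  set Q := Pd d c₁ k with hQ
  have hQ0 : 0 < Q := hc₁.Pd_pos k
  -- bound of `θ ^ k`
  have h1 : θ ^ k ≤ (2 * C₁ * lam) ^ ω * s ^ (-ω) := by
    have h2 : θ ^ k = (lam ^ k) ^ ω := by
      rw [hθ, ← Real.rpow_natCast, ← Real.rpow_natCast, ← Real.rpow_mul hl0.le,
        ← Real.rpow_mul hl0.le, mul_comm]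
    have h3 : lam ^ k ≤ 2 * C₁ * lam / s := by rwa [le_div_iff₀ hs0]
    rw [h2]
    calc (lam ^ k) ^ ω ≤ (2 * C₁ * lam / s) ^ ω := Real.rpow_le_rpow (by positivity) h3 hω0.le
      _ = _ := by
          rw [Real.div_rpow (by positivity) hs0.le, Real.rpow_neg hs0.le]
          rfl
  -- bound of `Q`
  have h2 : 1 ≤ F * s ^ (1 - ω) * Q ^ (1 + β) := by
    have h3 := hrec k
    have hPβ : 0 < Q ^ β := Real.rpow_pos_of_pos hQ0 β
    calc 1 ≤ C₂ * (‖zz d c₁ k‖ * Q ^ β) := h3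
      _ ≤ C₂ * ((B * θ ^ k * s * Q) * Q ^ β) := by gcongr
      _ ≤ C₂ * ((B * ((2 * C₁ * lam) ^ ω * s ^ (-ω)) * s * Q) * Q ^ β) := by gcongr
      _ = F * (s ^ (-ω) * s) * (Q * Q ^ β) := by rw [hF]; ring
      _ = _ := by
          rw [Real.rpow_add hQ0, Real.rpow_one, sub_eq_add_neg, Real.rpow_add hs0, Real.rpow_one]
          ring
  have h3 : 1 / Q ≤ Fq * s ^ t := by
    have h4 : (1 / Q : ℝ) = (1 / Q ^ (1 + β)) ^ q := by
      rw [Real.div_rpow zero_le_one (by positivity), Real.one_rpow, ← Real.rpow_mul hQ0.le, hq,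
        mul_div_cancel₀ _ hβ1.ne', Real.rpow_one]
    have h5 : (1 / Q : ℝ) ≤ (F * s ^ (1 - ω)) ^ q := by
      rw [h4]
      apply Real.rpow_le_rpow (by positivity) _ hq0.le
      rw [div_le_iff₀ (by positivity)]
      exact h2
    have h6 : (s ^ (1 - ω)) ^ q ≤ s ^ t := by
      rw [← Real.rpow_mul hs0.le]
      apply Real.rpow_le_rpow_of_exponent_ge hs0 hs1
      rw [hq, mul_one_div, le_div_iff₀ hβ1]
      linarith
    calc (1 / Q : ℝ) ≤ (F * s ^ (1 - ω)) ^ q := h5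
      _ = F ^ q * (s ^ (1 - ω)) ^ q := Real.mul_rpow hF0.le (by positivity)
      _ ≤ _ := by gcongr
  refine (measure_mono (inter_subset_inter_right _ hk6)).trans (hk5.trans ?_)
  apply ENNReal.ofReal_le_ofReal
  calc C * (1 / Q) ^ E ≤ C * (Fq * s ^ t) ^ E := by gcongr
    _ = C * ((Fq * (1 / ε₁) ^ t) * r ^ t) ^ E := by
        congr 2
        rw [hs, div_eq_mul_one_div, Real.mul_rpow hr0.le (by positivity)]
        ring
    _ = C * (Fq * (1 / ε₁) ^ t) ^ E * (r ^ t) ^ E := by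
        rw [Real.mul_rpow (by positivity) (by positivity)]
        ring
    _ = _ := by rw [← Real.rpow_mul hr0.le]

end Pool.Agent.Y298.GA
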