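import Mathlib
import Pool.Agent.Y298.GA.Up
import Pool.Agent.Y298.GA.RatStm
import Pool.Agent.Y298.CA.Sca

/-!
# Rational maps near `z ^ d + c₀`: the area of the bad translations and the volume of the bad maps
-/

set_option autoImplicit false

open Set Filter Metric MeasureTheory Topology Polynomial
open scoped OnePoint

namespace Pool.Agent.Y298.GA

open Pool.Agent.H762R2.Rt Pool.Agent.Helper114.Herman
open Pool.Agent.Y298.SH.CD (CEp Rec)
open Pool.Agent.Y298.CA (S_LYA Lyap rec_of_lya)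

variable {d : ℕ} {c₀ : ℂ}

/-- **The sharp bound of the area, parameters with a positive Lyapunov exponent.** -/
theorem area_lyap (J : JC) (hLYA : S_LYA) (hd : 2 ≤ d) {χ : ℝ} (h : Lyap d χ c₀) {E : ℝ}
    (hE0 : 0 ≤ E) (hE : E < 2 * (d : ℝ) / ((d : ℝ) - 1)) :
    ∃ C ε : ℝ, 0 < C ∧ 0 < ε ∧ ∀ r : ℝ, 0 < r → r ≤ ε →
      ∀ (a : ℂ → ℂ) (v : ℂ), DifferentiableOn ℂ a (ball (0 : ℂ) 9) →
        (∀ z ∈ ball (0 : ℂ) 9, ‖a z‖ ≤ 2 * r) → ‖v - c₀‖ ≤ r →
        volume ({w : ℂ | ∀ n : ℕ, ‖(fun z => z ^ d + (w + a z))^[n] w‖ ≤ 5 / 2} ∩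
          closedBall v r) ≤ ENNReal.ofReal (C * r ^ E) := by
  have hdR : (2 : ℝ) ≤ d := by exact_mod_cast hd
  have hd1 : 0 < (d : ℝ) - 1 := by linarith
  set E₀ : ℝ := 2 * (d : ℝ) / ((d : ℝ) - 1) with hE₀
  have hE₀0 : 0 < E₀ := by positivity
  obtain ⟨⟨C₁, lam, hce⟩, -⟩ := hLYA d χ c₀ hd h
  set t : ℝ := E / E₀ with ht
  have ht0 : 0 ≤ t := by positivity
  have ht1 : t < 1 := by
    rw [ht, div_lt_one hE₀0]
    exact hE
  set β : ℝ := (1 - t) / 2 with hβ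
  have hβ0 : 0 < β := by
    rw [hβ]
    linarith
  obtain ⟨C₂, hC₂, hrec⟩ := rec_of_lya hLYA hd h hβ0
  have h1 : t * (1 + β) < 1 := by
    rw [hβ]
    nlinarith
  obtain ⟨C, ε, hC, hε, H⟩ := area_local J hce hC₂ hβ0.le ht0 h1
  refine ⟨C, ε, hC, hε, ?_⟩
  intro r hr hrε a v ha har hv
  have h2 := H c₀ hce hrec (by simpa using hε.le) r hr hrε a v ha har hv
  have h3 : t * (2 * (d : ℝ) / ((d : ℝ) - 1)) = E := by
    rw [ht, ← hE₀]
    field_simp
  rwa [h3] at h2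

theorem wro_add (P Q : ℂ[X]) (t : ℂ) : wro (P + C t * Q) Q = wro P Q := by
  unfold wro
  rw [derivative_add, derivative_C_mul]
  ring

theorem wro_natDegree {P Q : ℂ[X]} (hP : P.natDegree ≤ d) (hQ : Q.natDegree ≤ d) :
    (wro P Q).natDegree ≤ 2 * d := by
  unfold wro
  refine (natDegree_sub_le _ _).trans (max_le ?_ ?_)
  · refine natDegree_mul_le.trans ?_
    have := natDegree_derivative_le P
    omega
  · refine natDegree_mul_le.trans ?_
    have := natDegree_derivative_le Q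
    omega

/-- **The area of the bad translations.** -/
theorem area_rat (hb : S_RBAS) (J : JC) (hLYA : S_LYA) (hd : 2 ≤ d) (hc : ‖c₀‖ ≤ 2) {χ : ℝ}
    (h : Lyap d χ c₀) {E : ℝ} (hE0 : 0 ≤ E) (hE : E < 2 * (d : ℝ) / ((d : ℝ) - 1)) :
    ∃ C₅ δ : ℝ, 0 < C₅ ∧ 0 < δ ∧ ∀ r : ℝ, 0 < r → r ≤ δ → ∀ P Q : ℂ[X], Nr d c₀ r P Q →
      volume {t : ℂ | ‖t‖ ≤ r ∧ Bd (P + C t * Q) Q} ≤ ENNReal.ofReal (C₅ * r ^ E) := by
  classical
  obtain ⟨K, δ₁, hK, hδ₁, hδ₁1, HB⟩ := hb d hd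
  obtain ⟨C₀, ε, hC₀, hε, HA⟩ := area_lyap J hLYA hd h hE0 hE
  have hK0 : 0 < K := by linarith
  refine ⟨(2 * d : ℕ) * (C₀ * K ^ E) + 1, min δ₁ (ε / K), by positivity, by positivity, ?_⟩
  intro r hr0 hrδ P Q hPQ
  obtain ⟨b1, b2, b3, -, b5, -, b7⟩ := HB c₀ r P Q hc hr0.le (hrδ.trans (min_le_left _ _)) hPQ
  have hrK : K * r ≤ ε := by
    have h1 := hrδ.trans (min_le_right _ _)
    rw [le_div_iff₀ hK0] at h1
    linarith
  have hQne : ∀ y ∈ ball (0 : ℂ) 9, Q.eval y ≠ 0 := by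
    intro y hy h0
    have := b1 y hy
    rw [h0, norm_zero] at this
    linarith
  set Rt : Finset ℂ := (wro P Q).roots.toFinset.filter fun z => ‖z‖ ≤ 5 / 2 with hRt
  set G : ℂ → ℂ → Set ℂ := fun v _ => {w : ℂ | ∀ n : ℕ,
    ‖(fun z => z ^ d + (w + (P.eval z / Q.eval z - z ^ d - v)))^[n] w‖ ≤ 5 / 2} ∩
      closedBall v (K * r) with hG
  have hsub : {t : ℂ | ‖t‖ ≤ r ∧ Bd (P + C t * Q) Q} ⊆ ⋃ z ∈ Rt,
      (fun t => P.eval z / Q.eval z + t) ⁻¹' (G (P.eval z / Q.eval z) 0) := by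
    rintro t ⟨ht, z, hz1, hz2, hz3⟩
    rw [wro_add] at hz2
    rw [mem_iUnion₂]
    refine ⟨z, ?_, ?_, ?_⟩
    · rw [hRt, Finset.mem_filter, Multiset.mem_toFinset, mem_roots b7]
      exact ⟨hz2, hz1⟩
    · intro n
      set v := P.eval z / Q.eval z with hv
      have e0 : ∀ y : ℂ, ‖y‖ ≤ 5 / 2 → (P + C t * Q).eval y / Q.eval y =
          y ^ d + ((v + t) + (P.eval y / Q.eval y - y ^ d - v)) := by
        intro y hy
        have h1 : Q.eval y ≠ 0 := hQne y (by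
          rw [mem_ball_zero_iff]
          linarith)
        rw [eval_add, eval_mul, eval_C, add_div, mul_div_cancel_right₀ _ h1]
        ring
      have e1 : (P + C t * Q).eval z / Q.eval z = v + t := by
        rw [e0 z hz1]
        rw [← hv]
        ring
      rw [e1] at hz3
      have e2 : ∀ n : ℕ, (fun z => z ^ d + ((v + t) + (P.eval z / Q.eval z - z ^ d - v)))^[n]
          (v + t) = (fun y => (P + C t * Q).eval y / Q.eval y)^[n] (v + t) := by
        intro n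
        induction n with
        | zero => rfl
        | succ n ih =>
          rw [Function.iterate_succ_apply', Function.iterate_succ_apply', ih]
          exact (e0 _ (hz3 n)).symm
      rw [e2]
      exact hz3 n
    · rw [mem_closedBall, dist_eq_norm]
      have : P.eval z / Q.eval z + t - P.eval z / Q.eval z = t := by ring
      rw [this]
      nlinarith
  have hone : ∀ z ∈ Rt, volume ((fun t => P.eval z / Q.eval z + t) ⁻¹'
      (G (P.eval z / Q.eval z) 0)) ≤ ENNReal.ofReal (C₀ * (K * r) ^ E) := by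
    intro z hz
    rw [hRt, Finset.mem_filter, Multiset.mem_toFinset, mem_roots b7] at hz
    have hv := b3 z hz.2 hz.1
    rw [measure_preimage_add]
    refine HA (K * r) (by positivity) hrK (fun y => P.eval y / Q.eval y - y ^ d -
      P.eval z / Q.eval z) (P.eval z / Q.eval z) ?_ ?_ hv
    · refine ((DifferentiableOn.fun_div P.differentiable.differentiableOn
        Q.differentiable.differentiableOn fun y hy => hQne y hy).fun_sub
        (differentiableOn_pow d)).sub_const _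
    · intro y hy
      have h1 := b2 y hy
      calc ‖P.eval y / Q.eval y - y ^ d - P.eval z / Q.eval z‖
          = ‖(P.eval y / Q.eval y - (y ^ d + c₀)) - (P.eval z / Q.eval z - c₀)‖ := by
            congr 1; ring
        _ ≤ ‖P.eval y / Q.eval y - (y ^ d + c₀)‖ + ‖P.eval z / Q.eval z - c₀‖ :=
            norm_sub_le _ _
        _ ≤ 2 * (K * r) := by linarith
  have hcard : (Rt.card : ℝ) ≤ (2 * d : ℕ) := by
    have h1 : Rt.card ≤ 2 * d := by
      calc Rt.card ≤ (wro P Q).roots.toFinset.card := Finset.card_filter_le _ _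
        _ ≤ Multiset.card (wro P Q).roots := Multiset.toFinset_card_le _
        _ ≤ (wro P Q).natDegree := card_roots' _
        _ ≤ 2 * d := wro_natDegree hPQ.dP hPQ.dQ
    exact_mod_cast h1
  calc volume {t : ℂ | ‖t‖ ≤ r ∧ Bd (P + C t * Q) Q}
      ≤ volume (⋃ z ∈ Rt, (fun t => P.eval z / Q.eval z + t) ⁻¹' (G (P.eval z / Q.eval z) 0)) :=
        measure_mono hsub
    _ ≤ ∑ z ∈ Rt, volume ((fun t => P.eval z / Q.eval z + t) ⁻¹' (G (P.eval z / Q.eval z) 0)) :=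
        measure_biUnion_finset_le _ _
    _ ≤ ∑ z ∈ Rt, ENNReal.ofReal (C₀ * (K * r) ^ E) := Finset.sum_le_sum hone
    _ = ENNReal.ofReal (Rt.card * (C₀ * (K * r) ^ E)) := by
        rw [Finset.sum_const, nsmul_eq_mul,
          ENNReal.ofReal_mul (p := (Rt.card : ℝ)) (by positivity), ENNReal.ofReal_natCast]
    _ ≤ _ := by
        apply ENNReal.ofReal_le_ofReal
        have hrE : 0 ≤ r ^ E := by positivity
        rw [Real.mul_rpow hK0.le hr0.le]
        calc (Rt.card : ℝ) * (C₀ * (K ^ E * r ^ E)) ≤ (2 * d : ℕ) * (C₀ * (K ^ E * r ^ E)) := by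
              gcongr
          _ = ((2 * d : ℕ) * (C₀ * K ^ E)) * r ^ E := by ring
          _ ≤ _ := by gcongr; linarith

theorem Nr.add {P Q : ℂ[X]} {r : ℝ} (h : Nr d c₀ r P Q) (hr0 : 0 ≤ r) (hr1 : r ≤ 1) {t : ℂ}
    (ht : ‖t‖ ≤ r) : Nr d c₀ (3 * r) (P + C t * Q) Q := by
  refine ⟨?_, h.dQ, ?_, fun i => (h.cQ i).trans (by linarith)⟩
  · refine (natDegree_add_le _ _).trans (max_le h.dP ?_)
    exact (natDegree_C_mul_le _ _).trans h.dQ
  · intro i
    have hQ1 : ‖Q.coeff i‖ ≤ 2 := by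
      have h1 := h.cQ i
      have h2 : ‖(1 : ℂ[X]).coeff i‖ ≤ 1 := by
        rw [coeff_one]
        split_ifs <;> simp
      calc ‖Q.coeff i‖ = ‖(Q.coeff i - (1 : ℂ[X]).coeff i) + (1 : ℂ[X]).coeff i‖ := by
            congr 1; ring
        _ ≤ _ := norm_add_le _ _
        _ ≤ 2 := by linarith
    rw [coeff_add, coeff_C_mul]
    calc ‖P.coeff i + t * Q.coeff i - (X ^ d + C c₀ : ℂ[X]).coeff i‖
        = ‖(P.coeff i - (X ^ d + C c₀ : ℂ[X]).coeff i) + t * Q.coeff i‖ := by congr 1; ring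
      _ ≤ ‖P.coeff i - (X ^ d + C c₀ : ℂ[X]).coeff i‖ + ‖t‖ * ‖Q.coeff i‖ := by
          rw [← norm_mul]
          exact norm_add_le _ _
      _ ≤ r + r * 2 := by
          gcongr
          exact h.cP i
      _ = _ := by ring

/-- **Hyperbolic translations at distance `r ^ σ`.** -/
theorem dens_rat (hb : S_RBAS) (hh : S_RHYP) (J : JC) (hLYA : S_LYA) (hd : 2 ≤ d) (hc : ‖c₀‖ ≤ 2)
    {χ : ℝ} (h : Lyap d χ c₀) {σ : ℝ} (hσ1 : 1 ≤ σ) (hσ : σ < (d : ℝ) / ((d : ℝ) - 1)) :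
    ∃ δ : ℝ, 0 < δ ∧ ∀ r : ℝ, 0 < r → r ≤ δ → ∀ P Q : ℂ[X], Nr d c₀ r P Q →
      ∃ t : ℂ, ‖t‖ ≤ r ^ σ ∧ Nr d c₀ (3 * r) (P + C t * Q) Q ∧ Hyp (P + C t * Q) Q := by
  have hdR : (2 : ℝ) ≤ d := by exact_mod_cast hd
  have hd1 : 0 < (d : ℝ) - 1 := by linarith
  set E : ℝ := σ + (d : ℝ) / ((d : ℝ) - 1) with hE
  have hE2 : E < 2 * (d : ℝ) / ((d : ℝ) - 1) := by
    have : 2 * (d : ℝ) / ((d : ℝ) - 1) = 2 * ((d : ℝ) / ((d : ℝ) - 1)) := by ring
    rw [this, hE]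
    linarith
  have hEσ : 0 < E - 2 * σ := by
    rw [hE]
    linarith
  obtain ⟨C₅, δ₁, hC₅, hδ₁, HA⟩ := area_rat hb J hLYA hd hc h (E := E) (by positivity) hE2
  obtain ⟨δ₂, hδ₂, -, HH⟩ := hh d hd
  set δ₃ : ℝ := (1 / (C₅ + 1)) ^ (E - 2 * σ)⁻¹ with hδ₃
  have hδ₃0 : 0 < δ₃ := Real.rpow_pos_of_pos (by positivity) _
  refine ⟨min (min δ₁ (δ₂ / 3)) (min δ₃ 1), lt_min (lt_min hδ₁ (by positivity))
    (lt_min hδ₃0 one_pos), ?_⟩
  intro r hr0 hrδ P Q hPQ
  have r1 : r ≤ δ₁ := hrδ.trans ((min_le_left _ _).trans (min_le_left _ _))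
  have r2 : 3 * r ≤ δ₂ := by
    have := hrδ.trans ((min_le_left _ _).trans (min_le_right _ _))
    linarith
  have r3 : r ≤ δ₃ := hrδ.trans ((min_le_right _ _).trans (min_le_left _ _))
  have r4 : r ≤ 1 := hrδ.trans ((min_le_right _ _).trans (min_le_right _ _))
  have hrσ : r ^ σ ≤ r := by
    calc r ^ σ ≤ r ^ (1 : ℝ) := Real.rpow_le_rpow_of_exponent_ge hr0 r4 hσ1
      _ = r := Real.rpow_one r
  have hrσ0 : 0 < r ^ σ := Real.rpow_pos_of_pos hr0 _
  by_contra hcon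
  push Not at hcon
  have hsub : closedBall (0 : ℂ) (r ^ σ) ⊆ {t : ℂ | ‖t‖ ≤ r ∧ Bd (P + C t * Q) Q} := by
    intro t ht
    rw [mem_closedBall_zero_iff] at ht
    refine ⟨ht.trans hrσ, ?_⟩
    by_contra hB
    have hN := hPQ.add hr0.le r4 (ht.trans hrσ)
    exact hcon t ht hN (HH c₀ (3 * r) _ _ hc (by positivity) r2 hN hB)
  have h1 := (measure_mono hsub).trans (HA r hr0 r1 P Q hPQ)
  rw [Pool.Agent.Y298.CA.vol_cb' _ hrσ0.le] at h1
  have h2 : Real.pi * (r ^ σ) ^ 2 ≤ C₅ * r ^ E := by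
    rwa [ENNReal.ofReal_le_ofReal_iff (by positivity)] at h1
  have h3 : r ^ E = r ^ (E - 2 * σ) * (r ^ σ) ^ 2 := by
    rw [← Real.rpow_natCast (r ^ σ) 2, ← Real.rpow_mul hr0.le, ← Real.rpow_add hr0]
    congr 1
    push_cast
    ring
  have h4 : r ^ (E - 2 * σ) ≤ 1 / (C₅ + 1) := by
    calc r ^ (E - 2 * σ) ≤ δ₃ ^ (E - 2 * σ) := Real.rpow_le_rpow hr0.le r3 hEσ.le
      _ = 1 / (C₅ + 1) := by
          rw [hδ₃, ← Real.rpow_mul (by positivity), inv_mul_cancel₀ hEσ.ne', Real.rpow_one]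
  have h5 : C₅ * r ^ E ≤ 1 * (r ^ σ) ^ 2 := by
    rw [h3, ← mul_assoc]
    gcongr
    calc C₅ * r ^ (E - 2 * σ) ≤ C₅ * (1 / (C₅ + 1)) := by gcongr
      _ ≤ 1 := by
          rw [mul_one_div, div_le_one (by positivity)]
          linarith
  have h6 : 0 < (r ^ σ) ^ 2 := by positivity
  have h7 := Real.pi_gt_three
  nlinarith

theorem num_add {a : Fin (d + 1) → ℂ} {b : Fin d → ℂ} (t : ℂ) :
    num c₀ (a + t • ev b) = num c₀ a + C t * den b := by
  unfold num den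
  have h1 : ∑ k : Fin (d + 1), (C (ev b k) * X ^ (k : ℕ) : ℂ[X]) =
      1 + ∑ k : Fin d, C (b k) * X ^ ((k : ℕ) + 1) := by
    rw [Fin.sum_univ_succ]
    simp [ev]
  rw [← h1, Finset.mul_sum]
  have h2 : ∑ k : Fin (d + 1), (C ((a + t • ev b) k) * X ^ (k : ℕ) : ℂ[X]) =
      ∑ k : Fin (d + 1), C (a k) * X ^ (k : ℕ) +
        ∑ k : Fin (d + 1), C t * (C (ev b k) * X ^ (k : ℕ)) := by
    rw [← Finset.sum_add_distrib]
    refine Finset.sum_congr rfl fun k _ => ?_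
    rw [Pi.add_apply, Pi.smul_apply, smul_eq_mul, C_add, C_mul]
    ring
  rw [h2, add_assoc (X ^ d + C c₀ : ℂ[X])]

theorem nr_num {x : (Fin d → ℂ) × (Fin (d + 1) → ℂ)} {r : ℝ} (hd : 2 ≤ d) (hx : ‖x‖ ≤ r) :
    Nr d c₀ r (num c₀ x.2) (den x.1) := by
  have hr : 0 ≤ r := (norm_nonneg _).trans hx
  have h1 : ∀ k, ‖x.1 k‖ ≤ r := fun k => (norm_le_pi_norm x.1 k).trans ((norm_fst_le x).trans hx)
  have h2 : ∀ k, ‖x.2 k‖ ≤ r := fun k => (norm_le_pi_norm x.2 k).trans ((norm_snd_le x).trans hx)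
  refine ⟨?_, ?_, ?_, ?_⟩
  · unfold num
    refine (natDegree_add_le _ _).trans (max_le ?_ ?_)
    · refine (natDegree_add_le _ _).trans (max_le ?_ ?_)
      · rw [natDegree_X_pow]
      · rw [natDegree_C]
        omega
    · refine natDegree_sum_le_of_forall_le _ _ fun k _ => ?_
      refine (natDegree_C_mul_X_pow_le _ _).trans ?_
      omega
  · unfold den
    refine (natDegree_add_le _ _).trans (max_le ?_ ?_)
    · rw [natDegree_one]
      omega
    · refine natDegree_sum_le_of_forall_le _ _ fun k _ => ?_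
      refine (natDegree_C_mul_X_pow_le _ _).trans ?_
      omega
  · intro i
    have e1 : (num c₀ x.2).coeff i - (X ^ d + C c₀ : ℂ[X]).coeff i =
        ∑ k : Fin (d + 1), if i = (k : ℕ) then x.2 k else 0 := by
      unfold num
      rw [coeff_add, add_sub_cancel_left, finset_sum_coeff]
      refine Finset.sum_congr rfl fun k _ => ?_
      rw [coeff_C_mul_X_pow]
    rw [e1]
    by_cases hi : i < d + 1
    · rw [Finset.sum_eq_single (⟨i, hi⟩ : Fin (d + 1))]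
      · rw [if_pos rfl]
        exact h2 _
      · intro k _ hk
        rw [if_neg]
        intro h3
        exact hk (Fin.ext h3.symm)
      · intro h3
        exact absurd (Finset.mem_univ _) h3
    · rw [Finset.sum_eq_zero]
      · simpa using hr
      · intro k _
        rw [if_neg]
        omega
  · intro i
    have e1 : (den x.1).coeff i - (1 : ℂ[X]).coeff i =
        ∑ k : Fin d, if i = (k : ℕ) + 1 then x.1 k else 0 := by
      unfold den
      rw [coeff_add, add_sub_cancel_left, finset_sum_coeff]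
      refine Finset.sum_congr rfl fun k _ => ?_
      rw [coeff_C_mul_X_pow]
    rw [e1]
    by_cases hi : 1 ≤ i ∧ i < d + 1
    · rw [Finset.sum_eq_single (⟨i - 1, by omega⟩ : Fin d)]
      · rw [if_pos (by show i = i - 1 + 1; omega)]
        exact h1 _
      · intro k _ hk
        rw [if_neg]
        intro h3
        apply hk
        apply Fin.ext
        show (k : ℕ) = i - 1
        omega
      · intro h3
        exact absurd (Finset.mem_univ _) h3
    · rw [Finset.sum_eq_zero]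
      · simpa using hr
      · intro k _
        rw [if_neg]
        have := k.2
        omega

/-- **The volume of the maps which are not hyperbolic.** -/
theorem vol_rat (hb : S_RBAS) (hh : S_RHYP) (hm : S_RMEA) (hs : S_RSHE) (J : JC) (hLYA : S_LYA)
    (hd : 2 ≤ d) (hc : ‖c₀‖ ≤ 2) {χ : ℝ} (h : Lyap d χ c₀) {κ : ℝ} (hκ0 : 0 ≤ κ)
    (hκ : κ < 2 / ((d : ℝ) - 1)) :
    ∃ C₆ δ : ℝ, 0 < C₆ ∧ 0 < δ ∧ ∀ r : ℝ, 0 < r → r ≤ δ →
      volume {x : (Fin d → ℂ) × (Fin (d + 1) → ℂ) | ‖x‖ ≤ r ∧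
        ¬ (max (num c₀ x.2).natDegree (den x.1).natDegree = d ∧ Hyp (num c₀ x.2) (den x.1))} ≤
        ENNReal.ofReal (C₆ * r ^ κ) *
          volume (closedBall (0 : (Fin d → ℂ) × (Fin (d + 1) → ℂ)) r) := by
  have hdR : (2 : ℝ) ≤ d := by exact_mod_cast hd
  have hd1 : 0 < (d : ℝ) - 1 := by linarith
  obtain ⟨C₅, δ₁, hC₅, hδ₁, HA⟩ := area_rat hb J hLYA hd hc h (E := κ + 2) (by positivity) (by
    have : 2 * (d : ℝ) / ((d : ℝ) - 1) = 2 / ((d : ℝ) - 1) + 2 := by field_simp; ring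
    rw [this]
    linarith)
  obtain ⟨δ₂, hδ₂, -, HH⟩ := hh d hd
  obtain ⟨δ₃, hδ₃, -, HM⟩ := hm d hd
  obtain ⟨K, δ₄, hK, hδ₄, hδ₄1, HB⟩ := hb d hd
  refine ⟨4 ^ (2 * d + 1) * (C₅ * 2 ^ (κ + 2)) / Real.pi, min (min (δ₁ / 2) δ₂) (min δ₃ (min δ₄ 1)),
    by positivity, by positivity, ?_⟩
  intro r hr0 hrδ
  have r1 : 2 * r ≤ δ₁ := by
    have := hrδ.trans ((min_le_left _ _).trans (min_le_left _ _))
    linarith
  have r2 : r ≤ δ₂ := hrδ.trans ((min_le_left _ _).trans (min_le_right _ _))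
  have r3 : r ≤ δ₃ := hrδ.trans ((min_le_right _ _).trans (min_le_left _ _))
  have r4 : r ≤ δ₄ := hrδ.trans ((min_le_right _ _).trans ((min_le_right _ _).trans
    (min_le_left _ _)))
  have r5 : r ≤ 1 := hrδ.trans ((min_le_right _ _).trans ((min_le_right _ _).trans
    (min_le_right _ _)))
  set B : Set ((Fin d → ℂ) × (Fin (d + 1) → ℂ)) := {x | ‖x‖ ≤ r ∧ Bd (num c₀ x.2) (den x.1)}
    with hB
  have hsub : {x : (Fin d → ℂ) × (Fin (d + 1) → ℂ) | ‖x‖ ≤ r ∧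
      ¬ (max (num c₀ x.2).natDegree (den x.1).natDegree = d ∧ Hyp (num c₀ x.2) (den x.1))} ⊆
      B := by
    rintro x ⟨hx, hx2⟩
    refine ⟨hx, ?_⟩
    by_contra hcon
    apply hx2
    have hN := nr_num (c₀ := c₀) hd hx
    exact ⟨(HB c₀ r _ _ hc hr0.le r4 hN).2.2.2.2.2.1, HH c₀ r _ _ hc hr0.le r2 hN hcon⟩
  have hS := hs d B r (C₅ * (2 * r) ^ (κ + 2)) (HM c₀ r hc r3).measurableSet hr0 r5 (by positivity)
    (fun x hx => by
      rw [mem_closedBall_zero_iff]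
      exact hx.1) (fun x hx => by
      refine le_trans (measure_mono ?_) (HA (2 * r) (by positivity) r1 _ _ (nr_num hd hx))
      rintro t ⟨ht, -, ht2⟩
      refine ⟨by linarith, ?_⟩
      rw [← num_add]
      exact ht2)
  refine (measure_mono hsub).trans (hS.trans (le_of_eq ?_))
  congr 2
  rw [Real.mul_rpow (by norm_num) hr0.le, Real.rpow_add hr0 κ 2, Real.rpow_two]
  field_simp

end Pool.Agent.Y298.GA
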