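import Mathlib
import Pool.Agent.Y298.GA.RatFin
import Pool.Agent.Y298.CA.All
import Pool.Agent.Y674.CA.Lya
import Pool.Agent.Y497.GA.Pa
import Pool.Agent.Y576.GA.Start
import Pool.Agent.Y500.GA.BI
import Pool.Agent.Y195.GA.PUSH
import Pool.Agent.Y363.GA.Tr
import Pool.Agent.Y604.GA.Pe

/-!
# Perturbations of unicritical polynomials: all the hypotheses of the area bound are discharged

Authors of the parts: helper195 (distortion), helper363 (transfer), helper604 (finitely many
iterates), helper497 (passage near the critical value), helper500 (passage near the critical point),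
helper576 (start), helpers 79, 932, 737, 811, 925, 356, 261, 274, 434, 220 (project CA); rational
maps: helper657, helper876, helper340, helper70, helper275; idea: helper272.
-/

set_option autoImplicit false

open Set Filter Metric MeasureTheory Topology

namespace Pool.Agent.Y298.GA

theorem jc : JC :=
  { jb :=
      { cov := Pool.Agent.Y79.CA.cov
        tr := Pool.Agent.Y363.GA.tr
        me := Pool.Agent.Y932.CA.me
        one := Pool.Agent.Y932.CA.one
        pe := Pool.Agent.Y604.GA.pe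
        ra := Pool.Agent.Y737.CA.ra
        rb := Pool.Agent.Y737.CA.rb
        ps := Pool.Agent.Y811.CA.ps }
    br := Pool.Agent.Y925.CA.Br.br
    nh := Pool.Agent.Y356.CA.nh
    pa := Pool.Agent.Y497.GA.pa
    bi := Pool.Agent.Y500.GA.bi Pool.Agent.Y195.GA.push
    st := Pool.Agent.Y576.GA.start Pool.Agent.Y604.GA.pe }

/-- **The area of the critical values with bounded orbit in perturbations of `z ^ d + c₀`.** -/
theorem area_final {d : ℕ} {c₀ : ℂ} (hd : 2 ≤ d) {χ : ℝ} (h : Pool.Agent.Y298.CA.Lyap d χ c₀)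
    {E : ℝ} (hE0 : 0 ≤ E) (hE : E < 2 * (d : ℝ) / ((d : ℝ) - 1)) :
    ∃ C ε : ℝ, 0 < C ∧ 0 < ε ∧ ∀ r : ℝ, 0 < r → r ≤ ε →
      ∀ (a : ℂ → ℂ) (v : ℂ), DifferentiableOn ℂ a (ball (0 : ℂ) 9) →
        (∀ z ∈ ball (0 : ℂ) 9, ‖a z‖ ≤ 2 * r) → ‖v - c₀‖ ≤ r →
        volume ({w : ℂ | ∀ n : ℕ, ‖(fun z => z ^ d + (w + a z))^[n] w‖ ≤ 5 / 2} ∩
          closedBall v r) ≤ ENNReal.ofReal (C * r ^ E) :=
  area_lyap jc Pool.Agent.Y674.CA.lya hd h hE0 hE

end Pool.Agent.Y298.GA
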