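import Mathlib
import Pool.Agent.Y298.GA.All
import Pool.Agent.Y298.GA.RatFin

/-!
# Rational maps near `z ^ d + c₀`: the bounds from a bound of the area with the exponent `E`
-/

set_option autoImplicit false

open Set Filter Metric MeasureTheory Topology Polynomial
open scoped OnePoint

namespace Pool.Agent.Y298.GA

open Pool.Agent.TH279.MD Pool.Agent.Y298.SH Pool.Agent.Y298.SH.CD
open Pool.Agent.H762R2.Rt Pool.Agent.Helper114.Herman
open Pool.Agent.Y298.CA (S_LYA Lyap rec_of_lya)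

variable {d : ℕ} {c₀ : ℂ}

/-- The bound of the area with the exponent `E`. -/
def AR (d : ℕ) (c₀ : ℂ) (E : ℝ) : Prop :=
  ∃ C ε : ℝ, 0 < C ∧ 0 < ε ∧ ∀ r : ℝ, 0 < r → r ≤ ε →
    ∀ (a : ℂ → ℂ) (v : ℂ), DifferentiableOn ℂ a (ball (0 : ℂ) 9) →
      (∀ z ∈ ball (0 : ℂ) 9, ‖a z‖ ≤ 2 * r) → ‖v - c₀‖ ≤ r →
      volume ({w : ℂ | ∀ n : ℕ, ‖(fun z => z ^ d + (w + a z))^[n] w‖ ≤ 5 / 2} ∩
        closedBall v r) ≤ ENNReal.ofReal (C * r ^ E)

/-- **Collet-Eckmann parameters with a recurrence condition.** -/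
theorem ar_rec {C₁ lam C₂ β : ℝ} (h : CEp d C₁ lam c₀) (hrec : Rec d C₂ β c₀) (hβ : 0 ≤ β) {E : ℝ}
    (hE0 : 0 ≤ E) (hE : E * (1 + β) < 2 * (d : ℝ) / ((d : ℝ) - 1)) : AR d c₀ E := by
  have hd := h.hd
  have hdR : (2 : ℝ) ≤ d := by exact_mod_cast hd
  have hd1 : 0 < (d : ℝ) - 1 := by linarith
  set E₀ : ℝ := 2 * (d : ℝ) / ((d : ℝ) - 1) with hE₀
  have hE₀0 : 0 < E₀ := by positivity
  have hC₂ : 0 < C₂ := by
    have h1 := hrec 0
    by_contra hcon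
    rw [not_lt] at hcon
    have h2 : 0 ≤ ‖zz d c₀ 0‖ * Pd d c₀ 0 ^ β :=
      mul_nonneg (norm_nonneg _) (Real.rpow_nonneg (h.Pd_pos 0).le _)
    have h3 := mul_nonpos_of_nonpos_of_nonneg hcon h2
    linarith
  have ht0 : 0 ≤ E / E₀ := by positivity
  have ht1 : E / E₀ * (1 + β) < 1 := by
    rw [div_mul_eq_mul_div, div_lt_one hE₀0]
    exact hE
  obtain ⟨C, ε, hC, hε, H⟩ := area_local jc h hC₂ hβ ht0 ht1
  refine ⟨C, ε, hC, hε, ?_⟩
  intro r hr hrε a v ha har hv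
  have h2 := H c₀ h hrec (by simpa using hε.le) r hr hrε a v ha har hv
  have h3 : E / E₀ * (2 * (d : ℝ) / ((d : ℝ) - 1)) = E := by
    rw [← hE₀]
    field_simp
  rwa [h3] at h2

/-- **All Collet-Eckmann parameters.** -/
theorem ar_ce {C₁ lam : ℝ} (h : CEp d C₁ lam c₀) {E : ℝ} (hE0 : 0 ≤ E)
    (hE : E * (1 - Real.log lam / (d * Real.log (2 * d))) < 2) : AR d c₀ E := by
  have hd := h.hd
  have hdR : (2 : ℝ) ≤ d := by exact_mod_cast hd
  have hd1 : 0 < (d : ℝ) - 1 := by linarith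
  have hlog : 0 < Real.log (2 * d) := Real.log_pos (by linarith)
  have hll : 0 < Real.log lam := Real.log_pos h.lam1
  have hle : Real.log lam ≤ Real.log (2 * d) :=
    Real.log_le_log (by linarith [h.lam1]) h.lam_le
  have hq1 : Real.log lam / Real.log (2 * d) ≤ 1 := by
    rw [div_le_one hlog]
    exact hle
  refine ar_rec h h.recB (div_nonneg (by linarith) hd1.le) hE0 ?_
  set q := Real.log lam / Real.log (2 * d) with hq
  have h1 : Real.log lam / (d * Real.log (2 * d)) = q / d := by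
    rw [hq]
    field_simp
  rw [h1] at hE
  rw [lt_div_iff₀ hd1]
  have h2 : E * (1 + (1 - q) / ((d : ℝ) - 1)) * ((d : ℝ) - 1) = (E * (1 - q / d)) * d := by
    field_simp
    ring
  rw [h2]
  gcongr

/-- **Parameters with a positive Lyapunov exponent.** -/
theorem ar_lyap (hd : 2 ≤ d) {χ : ℝ} (h : Lyap d χ c₀) {E : ℝ}
    (hE0 : 0 ≤ E) (hE : E < 2 * (d : ℝ) / ((d : ℝ) - 1)) : AR d c₀ E :=
  area_final hd h hE0 hE

/-- **The area of the bad translations.** -/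
theorem area_rat' (hb : S_RBAS) (hd : 2 ≤ d) (hc : ‖c₀‖ ≤ 2) {E : ℝ} (hA : AR d c₀ E) :
    ∃ C₅ δ : ℝ, 0 < C₅ ∧ 0 < δ ∧ ∀ r : ℝ, 0 < r → r ≤ δ → ∀ P Q : ℂ[X], Nr d c₀ r P Q →
      volume {t : ℂ | ‖t‖ ≤ r ∧ Bd (P + C t * Q) Q} ≤ ENNReal.ofReal (C₅ * r ^ E) := by
  classical
  obtain ⟨K, δ₁, hK, hδ₁, hδ₁1, HB⟩ := hb d hd
  obtain ⟨C₀, ε, hC₀, hε, HA⟩ := hA
  have hK0 : 0 < K := by linarith
  refine ⟨(2 * d : ℕ) * (C₀ * K ^ E) + 1, min δ₁ (ε / K), by positivity, by positivity, ?_⟩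
  intro r hr0 hrδ P Q hPQ
  obtain ⟨b1, b2, b3, -, b5, -, b7⟩ := HB c₀ r P Q hc hr0.le (hrδ.trans (min_le_left _ _)) hPQ
  have hrK : K * r ≤ ε := by
    have h1 := hrδ.trans (min_le_right _ _)
    rw [le_div_iff₀ hK0] at h1
    linarith
  have hQne : ∀ y ∈ ball (0 : ℂ) 9, Q.eval y ≠ 0 := by
    intro y hy h0
    have := b1 y hy
    rw [h0, norm_zero] at this
    linarith
  set Rt : Finset ℂ := (wro P Q).roots.toFinset.filter fun z => ‖z‖ ≤ 5 / 2 with hRt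
  set G : ℂ → ℂ → Set ℂ := fun v _ => {w : ℂ | ∀ n : ℕ,
    ‖(fun z => z ^ d + (w + (P.eval z / Q.eval z - z ^ d - v)))^[n] w‖ ≤ 5 / 2} ∩
      closedBall v (K * r) with hG
  have hsub : {t : ℂ | ‖t‖ ≤ r ∧ Bd (P + C t * Q) Q} ⊆ ⋃ z ∈ Rt,
      (fun t => P.eval z / Q.eval z + t) ⁻¹' (G (P.eval z / Q.eval z) 0) := by
    rintro t ⟨ht, z, hz1, hz2, hz3⟩
    rw [wro_add] at hz2
    rw [mem_iUnion₂]
    refine ⟨z, ?_, ?_, ?_⟩
    · rw [hRt, Finset.mem_filter, Multiset.mem_toFinset, mem_roots b7]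
      exact ⟨hz2, hz1⟩
    · intro n
      set v := P.eval z / Q.eval z with hv
      have e0 : ∀ y : ℂ, ‖y‖ ≤ 5 / 2 → (P + C t * Q).eval y / Q.eval y =
          y ^ d + ((v + t) + (P.eval y / Q.eval y - y ^ d - v)) := by
        intro y hy
        have h1 : Q.eval y ≠ 0 := hQne y (by
          rw [mem_ball_zero_iff]
          linarith)
        rw [eval_add, eval_mul, eval_C, add_div, mul_div_cancel_right₀ _ h1]
        ring
      have e1 : (P + C t * Q).eval z / Q.eval z = v + t := by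
        rw [e0 z hz1]
        rw [← hv]
        ring
      rw [e1] at hz3
      have e2 : ∀ n : ℕ, (fun z => z ^ d + ((v + t) + (P.eval z / Q.eval z - z ^ d - v)))^[n]
          (v + t) = (fun y => (P + C t * Q).eval y / Q.eval y)^[n] (v + t) := by
        intro n
        induction n with
        | zero => rfl
        | succ n ih =>
          rw [Function.iterate_succ_apply', Function.iterate_succ_apply', ih]
          exact (e0 _ (hz3 n)).symm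
      rw [e2]
      exact hz3 n
    · rw [mem_closedBall, dist_eq_norm]
      have : P.eval z / Q.eval z + t - P.eval z / Q.eval z = t := by ring
      rw [this]
      nlinarith
  have hone : ∀ z ∈ Rt, volume ((fun t => P.eval z / Q.eval z + t) ⁻¹'
      (G (P.eval z / Q.eval z) 0)) ≤ ENNReal.ofReal (C₀ * (K * r) ^ E) := by
    intro z hz
    rw [hRt, Finset.mem_filter, Multiset.mem_toFinset, mem_roots b7] at hz
    have hv := b3 z hz.2 hz.1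
    rw [measure_preimage_add]
    refine HA (K * r) (by positivity) hrK (fun y => P.eval y / Q.eval y - y ^ d -
      P.eval z / Q.eval z) (P.eval z / Q.eval z) ?_ ?_ hv
    · refine ((DifferentiableOn.fun_div P.differentiable.differentiableOn
        Q.differentiable.differentiableOn fun y hy => hQne y hy).fun_sub
        (differentiableOn_pow d)).sub_const _
    · intro y hy
      have h1 := b2 y hy
      calc ‖P.eval y / Q.eval y - y ^ d - P.eval z / Q.eval z‖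
          = ‖(P.eval y / Q.eval y - (y ^ d + c₀)) - (P.eval z / Q.eval z - c₀)‖ := by
            congr 1; ring
        _ ≤ ‖P.eval y / Q.eval y - (y ^ d + c₀)‖ + ‖P.eval z / Q.eval z - c₀‖ :=
            norm_sub_le _ _
        _ ≤ 2 * (K * r) := by linarith
  have hcard : (Rt.card : ℝ) ≤ (2 * d : ℕ) := by
    have h1 : Rt.card ≤ 2 * d := by
      calc Rt.card ≤ (wro P Q).roots.toFinset.card := Finset.card_filter_le _ _
        _ ≤ Multiset.card (wro P Q).roots := Multiset.toFinset_card_le _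
        _ ≤ (wro P Q).natDegree := card_roots' _
        _ ≤ 2 * d := wro_natDegree hPQ.dP hPQ.dQ
    exact_mod_cast h1
  calc volume {t : ℂ | ‖t‖ ≤ r ∧ Bd (P + C t * Q) Q}
      ≤ volume (⋃ z ∈ Rt, (fun t => P.eval z / Q.eval z + t) ⁻¹' (G (P.eval z / Q.eval z) 0)) :=
        measure_mono hsub
    _ ≤ ∑ z ∈ Rt, volume ((fun t => P.eval z / Q.eval z + t) ⁻¹' (G (P.eval z / Q.eval z) 0)) :=
        measure_biUnion_finset_le _ _
    _ ≤ ∑ z ∈ Rt, ENNReal.ofReal (C₀ * (K * r) ^ E) := Finset.sum_le_sum hone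
    _ = ENNReal.ofReal (Rt.card * (C₀ * (K * r) ^ E)) := by
        rw [Finset.sum_const, nsmul_eq_mul,
          ENNReal.ofReal_mul (p := (Rt.card : ℝ)) (by positivity), ENNReal.ofReal_natCast]
    _ ≤ _ := by
        apply ENNReal.ofReal_le_ofReal
        have hrE : 0 ≤ r ^ E := by positivity
        rw [Real.mul_rpow hK0.le hr0.le]
        calc (Rt.card : ℝ) * (C₀ * (K ^ E * r ^ E)) ≤ (2 * d : ℕ) * (C₀ * (K ^ E * r ^ E)) := by
              gcongr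
          _ = ((2 * d : ℕ) * (C₀ * K ^ E)) * r ^ E := by ring
          _ ≤ _ := by gcongr; linarith

/-- **Hyperbolic translations at distance `r ^ σ`.** -/
theorem dens_rat' (hb : S_RBAS) (hh : S_RHYP) (hd : 2 ≤ d) (hc : ‖c₀‖ ≤ 2) {E₀ : ℝ}
    (hA : ∀ E : ℝ, 0 ≤ E → E < E₀ → AR d c₀ E) {σ : ℝ} (hσ1 : 1 ≤ σ) (hσ : σ < E₀ / 2) :
    ∃ δ : ℝ, 0 < δ ∧ ∀ r : ℝ, 0 < r → r ≤ δ → ∀ P Q : ℂ[X], Nr d c₀ r P Q →
      ∃ t : ℂ, ‖t‖ ≤ r ^ σ ∧ Nr d c₀ (3 * r) (P + C t * Q) Q ∧ Hyp (P + C t * Q) Q := by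
  have hdR : (2 : ℝ) ≤ d := by exact_mod_cast hd
  have hd1 : 0 < (d : ℝ) - 1 := by linarith
  set E : ℝ := σ + E₀ / 2 with hE
  have hE2 : E < E₀ := by
    rw [hE]
    linarith
  have hE00 : 0 ≤ E := by
    rw [hE]
    linarith
  have hEσ : 0 < E - 2 * σ := by
    rw [hE]
    linarith
  obtain ⟨C₅, δ₁, hC₅, hδ₁, HA⟩ := area_rat' hb hd hc (hA E hE00 hE2)
  obtain ⟨δ₂, hδ₂, -, HH⟩ := hh d hd
  set δ₃ : ℝ := (1 / (C₅ + 1)) ^ (E - 2 * σ)⁻¹ with hδ₃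
  have hδ₃0 : 0 < δ₃ := Real.rpow_pos_of_pos (by positivity) _
  refine ⟨min (min δ₁ (δ₂ / 3)) (min δ₃ 1), lt_min (lt_min hδ₁ (by positivity))
    (lt_min hδ₃0 one_pos), ?_⟩
  intro r hr0 hrδ P Q hPQ
  have r1 : r ≤ δ₁ := hrδ.trans ((min_le_left _ _).trans (min_le_left _ _))
  have r2 : 3 * r ≤ δ₂ := by
    have := hrδ.trans ((min_le_left _ _).trans (min_le_right _ _))
    linarith
  have r3 : r ≤ δ₃ := hrδ.trans ((min_le_right _ _).trans (min_le_left _ _))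
  have r4 : r ≤ 1 := hrδ.trans ((min_le_right _ _).trans (min_le_right _ _))
  have hrσ : r ^ σ ≤ r := by
    calc r ^ σ ≤ r ^ (1 : ℝ) := Real.rpow_le_rpow_of_exponent_ge hr0 r4 hσ1
      _ = r := Real.rpow_one r
  have hrσ0 : 0 < r ^ σ := Real.rpow_pos_of_pos hr0 _
  by_contra hcon
  push Not at hcon
  have hsub : closedBall (0 : ℂ) (r ^ σ) ⊆ {t : ℂ | ‖t‖ ≤ r ∧ Bd (P + C t * Q) Q} := by
    intro t ht
    rw [mem_closedBall_zero_iff] at ht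
    refine ⟨ht.trans hrσ, ?_⟩
    by_contra hB
    have hN := hPQ.add hr0.le r4 (ht.trans hrσ)
    exact hcon t ht hN (HH c₀ (3 * r) _ _ hc (by positivity) r2 hN hB)
  have h1 := (measure_mono hsub).trans (HA r hr0 r1 P Q hPQ)
  rw [Pool.Agent.Y298.CA.vol_cb' _ hrσ0.le] at h1
  have h2 : Real.pi * (r ^ σ) ^ 2 ≤ C₅ * r ^ E := by
    rwa [ENNReal.ofReal_le_ofReal_iff (by positivity)] at h1
  have h3 : r ^ E = r ^ (E - 2 * σ) * (r ^ σ) ^ 2 := by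
    rw [← Real.rpow_natCast (r ^ σ) 2, ← Real.rpow_mul hr0.le, ← Real.rpow_add hr0]
    congr 1
    push_cast
    ring
  have h4 : r ^ (E - 2 * σ) ≤ 1 / (C₅ + 1) := by
    calc r ^ (E - 2 * σ) ≤ δ₃ ^ (E - 2 * σ) := Real.rpow_le_rpow hr0.le r3 hEσ.le
      _ = 1 / (C₅ + 1) := by
          rw [hδ₃, ← Real.rpow_mul (by positivity), inv_mul_cancel₀ hEσ.ne', Real.rpow_one]
  have h5 : C₅ * r ^ E ≤ 1 * (r ^ σ) ^ 2 := by
    rw [h3, ← mul_assoc]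
    gcongr
    calc C₅ * r ^ (E - 2 * σ) ≤ C₅ * (1 / (C₅ + 1)) := by gcongr
      _ ≤ 1 := by
          rw [mul_one_div, div_le_one (by positivity)]
          linarith
  have h6 : 0 < (r ^ σ) ^ 2 := by positivity
  have h7 := Real.pi_gt_three
  nlinarith

/-- **The volume of the maps which are not hyperbolic.** -/
theorem vol_rat' (hb : S_RBAS) (hh : S_RHYP) (hm : S_RMEA) (hs : S_RSHE)
    (hd : 2 ≤ d) (hc : ‖c₀‖ ≤ 2) {E₀ : ℝ} (hA : ∀ E : ℝ, 0 ≤ E → E < E₀ → AR d c₀ E) {κ : ℝ}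
    (hκ0 : 0 ≤ κ) (hκ : κ < E₀ - 2) :
    ∃ C₆ δ : ℝ, 0 < C₆ ∧ 0 < δ ∧ ∀ r : ℝ, 0 < r → r ≤ δ →
      volume {x : (Fin d → ℂ) × (Fin (d + 1) → ℂ) | ‖x‖ ≤ r ∧
        ¬ (max (num c₀ x.2).natDegree (den x.1).natDegree = d ∧ Hyp (num c₀ x.2) (den x.1))} ≤
        ENNReal.ofReal (C₆ * r ^ κ) *
          volume (closedBall (0 : (Fin d → ℂ) × (Fin (d + 1) → ℂ)) r) := by
  have hdR : (2 : ℝ) ≤ d := by exact_mod_cast hd
  have hd1 : 0 < (d : ℝ) - 1 := by linarith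
  obtain ⟨C₅, δ₁, hC₅, hδ₁, HA⟩ := area_rat' hb hd hc (hA (κ + 2) (by positivity) (by linarith))
  obtain ⟨δ₂, hδ₂, -, HH⟩ := hh d hd
  obtain ⟨δ₃, hδ₃, -, HM⟩ := hm d hd
  obtain ⟨K, δ₄, hK, hδ₄, hδ₄1, HB⟩ := hb d hd
  refine ⟨4 ^ (2 * d + 1) * (C₅ * 2 ^ (κ + 2)) / Real.pi, min (min (δ₁ / 2) δ₂) (min δ₃ (min δ₄ 1)),
    by positivity, by positivity, ?_⟩
  intro r hr0 hrδ
  have r1 : 2 * r ≤ δ₁ := by
    have := hrδ.trans ((min_le_left _ _).trans (min_le_left _ _))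
    linarith
  have r2 : r ≤ δ₂ := hrδ.trans ((min_le_left _ _).trans (min_le_right _ _))
  have r3 : r ≤ δ₃ := hrδ.trans ((min_le_right _ _).trans (min_le_left _ _))
  have r4 : r ≤ δ₄ := hrδ.trans ((min_le_right _ _).trans ((min_le_right _ _).trans
    (min_le_left _ _)))
  have r5 : r ≤ 1 := hrδ.trans ((min_le_right _ _).trans ((min_le_right _ _).trans
    (min_le_right _ _)))
  set B : Set ((Fin d → ℂ) × (Fin (d + 1) → ℂ)) := {x | ‖x‖ ≤ r ∧ Bd (num c₀ x.2) (den x.1)}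
    with hB
  have hsub : {x : (Fin d → ℂ) × (Fin (d + 1) → ℂ) | ‖x‖ ≤ r ∧
      ¬ (max (num c₀ x.2).natDegree (den x.1).natDegree = d ∧ Hyp (num c₀ x.2) (den x.1))} ⊆
      B := by
    rintro x ⟨hx, hx2⟩
    refine ⟨hx, ?_⟩
    by_contra hcon
    apply hx2
    have hN := nr_num (c₀ := c₀) hd hx
    exact ⟨(HB c₀ r _ _ hc hr0.le r4 hN).2.2.2.2.2.1, HH c₀ r _ _ hc hr0.le r2 hN hcon⟩
  have hS := hs d B r (C₅ * (2 * r) ^ (κ + 2)) (HM c₀ r hc r3).measurableSet hr0 r5 (by positivity)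
    (fun x hx => by
      rw [mem_closedBall_zero_iff]
      exact hx.1) (fun x hx => by
      refine le_trans (measure_mono ?_) (HA (2 * r) (by positivity) r1 _ _ (nr_num hd hx))
      rintro t ⟨ht, -, ht2⟩
      refine ⟨by linarith, ?_⟩
      rw [← num_add]
      exact ht2)
  refine (measure_mono hsub).trans (hS.trans (le_of_eq ?_))
  congr 2
  rw [Real.mul_rpow (by norm_num) hr0.le, Real.rpow_add hr0 κ 2, Real.rpow_two]
  field_simp


/-- The statements on the rational maps near `z ^ d + c₀`. -/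
structure ThinE (d : ℕ) (c₀ : ℂ) (E₀ : ℝ) : Prop where
  dens : ∀ σ : ℝ, 1 ≤ σ → σ < E₀ / 2 → ∃ δ : ℝ, 0 < δ ∧ ∀ r : ℝ, 0 < r → r ≤ δ →
    ∀ P Q : ℂ[X], Nr d c₀ r P Q → ∃ t : ℂ, ‖t‖ ≤ r ^ σ ∧
      max (P + C t * Q).natDegree Q.natDegree = d ∧ Hyp (P + C t * Q) Q
  area : ∀ E : ℝ, 0 ≤ E → E < E₀ → ∃ K δ : ℝ, 0 < K ∧ 0 < δ ∧
    ∀ r : ℝ, 0 < r → r ≤ δ → ∀ P Q : ℂ[X], Nr d c₀ r P Q →
      volume {t : ℂ | ‖t‖ ≤ r ∧ ¬ (max (P + C t * Q).natDegree Q.natDegree = d ∧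
        Hyp (P + C t * Q) Q)} ≤ ENNReal.ofReal (K * r ^ E)
  vol : ∀ κ : ℝ, 0 ≤ κ → κ < E₀ - 2 → ∃ K δ : ℝ, 0 < K ∧ 0 < δ ∧
    ∀ r : ℝ, 0 < r → r ≤ δ →
      volume {x : (Fin d → ℂ) × (Fin (d + 1) → ℂ) | ‖x‖ ≤ r ∧
        ¬ (max (num c₀ x.2).natDegree (den x.1).natDegree = d ∧ Hyp (num c₀ x.2) (den x.1))} ≤
        ENNReal.ofReal (K * r ^ κ) *
          volume (closedBall (0 : (Fin d → ℂ) × (Fin (d + 1) → ℂ)) r)

theorem thinE (hb : S_RBAS) (hh : S_RHYP) (hm : S_RMEA) (hs : S_RSHE) (hd : 2 ≤ d)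
    (hc : ‖c₀‖ ≤ 2) {E₀ : ℝ} (hA : ∀ E : ℝ, 0 ≤ E → E < E₀ → AR d c₀ E) : ThinE d c₀ E₀ := by
  have hdR : (2 : ℝ) ≤ d := by exact_mod_cast hd
  obtain ⟨K₀, δ₀, hK₀, hδ₀, hδ₀1, HB⟩ := hb d hd
  obtain ⟨δ₂, hδ₂, -, HH⟩ := hh d hd
  refine ⟨?_, ?_, ?_⟩
  · intro σ hσ1 hσ
    obtain ⟨δ, hδ, H⟩ := dens_rat' hb hh hd hc hA hσ1 hσ
    refine ⟨min δ (δ₀ / 3), lt_min hδ (by positivity), ?_⟩
    intro r hr0 hrδ P Q hPQ
    obtain ⟨t, h1, h2, h3⟩ := H r hr0 (hrδ.trans (min_le_left _ _)) P Q hPQ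
    have h4 : 3 * r ≤ δ₀ := by
      have := hrδ.trans (min_le_right _ _)
      linarith
    exact ⟨t, h1, (HB c₀ (3 * r) _ _ hc (by positivity) h4 h2).2.2.2.2.2.1, h3⟩
  · intro E hE0 hE
    obtain ⟨K, δ, hK, hδ, H⟩ := area_rat' hb hd hc (hA E hE0 hE)
    refine ⟨K, min (min δ 1) (min (δ₀ / 3) (δ₂ / 3)), hK, by positivity, ?_⟩
    intro r hr0 hrδ P Q hPQ
    have r1 : r ≤ δ := hrδ.trans ((min_le_left _ _).trans (min_le_left _ _))
    have r2 : r ≤ 1 := hrδ.trans ((min_le_left _ _).trans (min_le_right _ _))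
    have r3 : 3 * r ≤ δ₀ := by
      have := hrδ.trans ((min_le_right _ _).trans (min_le_left _ _))
      linarith
    have r4 : 3 * r ≤ δ₂ := by
      have := hrδ.trans ((min_le_right _ _).trans (min_le_right _ _))
      linarith
    refine (measure_mono ?_).trans (H r hr0 r1 P Q hPQ)
    rintro t ⟨ht, ht2⟩
    refine ⟨ht, ?_⟩
    by_contra hcon
    have hN := hPQ.add hr0.le r2 ht
    exact ht2 ⟨(HB c₀ (3 * r) _ _ hc (by positivity) r3 hN).2.2.2.2.2.1,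
      HH c₀ (3 * r) _ _ hc (by positivity) r4 hN hcon⟩
  · intro κ hκ0 hκ
    exact vol_rat' hb hh hm hs hd hc hA hκ0 hκ

end Pool.Agent.Y298.GA
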